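import Mathlib

/-!
Unimodular changes of nonnegative real numbers.
-/

set_option autoImplicit false

namespace Pool.Agent.Lib.MP_17a322_nt.ABD

theorem u_greedy {Y : Type*} [DecidableEq Y] (m : ℕ) (z : Y → ℝ) (hz : ∀ i, 0 ≤ z i)
    (S : Finset Y) : ∀ x : ℝ, 0 ≤ x → x ≤ m * ∑ i ∈ S, z i → S.Nonempty →
    ∃ (k : Y → ℕ) (j : Y), j ∈ S ∧ (∀ i, k i ≤ m) ∧
      0 ≤ x - ∑ i ∈ S, k i * z i ∧ x - ∑ i ∈ S, k i * z i ≤ z j := by
  induction S using Finset.induction_on with
  | empty => exact fun x _ _ h => absurd h Finset.not_nonempty_empty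
  | insert a S ha ih =>
    intro x hx hxm _
    by_cases h : x ≤ m * z a
    · rcases (hz a).eq_or_lt with h0 | h0
      · have hx0 : x = 0 := by
          rw [← h0, mul_zero] at h
          exact le_antisymm h hx
        refine ⟨fun _ => 0, a, Finset.mem_insert_self _ _, fun _ => Nat.zero_le _, ?_, ?_⟩
        · simp [hx0]
        · simp [hx0, hz a]
      · have hsum : ∑ i ∈ insert a S, ((if i = a then ⌊x / z a⌋₊ else 0 : ℕ) : ℝ) * z i
            = (⌊x / z a⌋₊ : ℝ) * z a := by
          rw [Finset.sum_insert ha, if_pos rfl]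
          have : ∑ i ∈ S, ((if i = a then ⌊x / z a⌋₊ else 0 : ℕ) : ℝ) * z i = 0 :=
            Finset.sum_eq_zero fun i hi => by
              rw [if_neg (ne_of_mem_of_not_mem hi ha), Nat.cast_zero, zero_mul]
          rw [this, add_zero]
        have h1 := Nat.floor_le (div_nonneg hx h0.le)
        have h2 := Nat.lt_floor_add_one (x / z a)
        rw [le_div_iff₀ h0] at h1
        rw [div_lt_iff₀ h0] at h2
        refine ⟨fun i => if i = a then ⌊x / z a⌋₊ else 0, a, Finset.mem_insert_self _ _,
          fun i => ?_, ?_, ?_⟩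
        · dsimp only
          split_ifs
          · refine Nat.floor_le_of_le ?_
            rw [div_le_iff₀ h0]
            exact h
          · exact Nat.zero_le _
        · rw [hsum]; linarith
        · rw [hsum]; linarith
    · push Not at h
      rw [Finset.sum_insert ha, mul_add] at hxm
      have hS : S.Nonempty := by
        by_contra hc
        rw [Finset.not_nonempty_iff_eq_empty] at hc
        rw [hc, Finset.sum_empty, mul_zero] at hxm
        linarith
      obtain ⟨k, j, hj, hk, h1, h2⟩ := ih (x - m * z a) (by linarith) (by linarith) hS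
      have hsum : ∑ i ∈ insert a S, ((if i = a then m else k i : ℕ) : ℝ) * z i
          = m * z a + ∑ i ∈ S, (k i : ℝ) * z i := by
        rw [Finset.sum_insert ha, if_pos rfl]
        congr 1
        exact Finset.sum_congr rfl fun i hi => by rw [if_neg (ne_of_mem_of_not_mem hi ha)]
      refine ⟨fun i => if i = a then m else k i, j, Finset.mem_insert_of_mem hj,
        fun i => ?_, ?_, ?_⟩
      · dsimp only
        split_ifs
        · exact le_refl _
        · exact hk i
      · rw [hsum]; linarith
      · rw [hsum]; linarith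

theorem u_main (m n : ℕ) : ∃ M : ℕ, ∀ (Y : Type) [Fintype Y] [DecidableEq Y] (θ : Y)
    (S : Finset Y), θ ∉ S → S.card ≤ n → ∀ x : Y → ℝ, 0 ≤ x θ →
    (∀ y ∈ S, 0 ≤ x y ∧ x y ≤ m * x θ) → ∃ N : Matrix Y Y ℤ, N.det = 1 ∧
      (∀ i j, |N i j| ≤ M) ∧ (∀ i, i ∉ insert θ S → ∀ j, N i j = if i = j then 1 else 0) ∧
      (∀ j, j ∉ insert θ S → ∀ i, N i j = if i = j then 1 else 0) ∧
      (∀ i ∈ insert θ S, 0 ≤ ∑ j, (N i j : ℝ) * x j) ∧
      ∑ i ∈ insert θ S, ∑ j, (N i j : ℝ) * x j = x θ := by
  induction n with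
  | zero =>
    refine ⟨1, fun Y _ _ θ S hθ hS x hx _ => ⟨1, Matrix.det_one, ?_, ?_, ?_, ?_, ?_⟩⟩
    · intro i j
      rw [Matrix.one_apply]
      split_ifs <;> simp
    · intro i _ j
      rw [Matrix.one_apply]
    · intro j _ i
      rw [Matrix.one_apply]
    · intro i hi
      obtain rfl := Finset.card_eq_zero.1 (Nat.le_zero.1 hS)
      rw [insert_empty_eq, Finset.mem_singleton] at hi
      subst hi
      simp [Matrix.one_apply, hx]
    · obtain rfl := Finset.card_eq_zero.1 (Nat.le_zero.1 hS)
      simp [Matrix.one_apply]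
  | succ n ih =>
    obtain ⟨M, hM⟩ := ih
    refine ⟨1 + M + (n + 1) * (m * M), fun Y _ _ θ S hθ hS x hx hxS => ?_⟩
    rcases Nat.lt_or_ge S.card (n + 1) with hlt | hge
    · obtain ⟨N, h1, h2, h3⟩ := hM Y θ S hθ (by omega) x hx hxS
      refine ⟨N, h1, fun i j => (h2 i j).trans ?_, h3⟩
      have : M ≤ 1 + M + (n + 1) * (m * M) := by omega
      exact_mod_cast this
    have hcard : S.card = n + 1 := le_antisymm hS hge
    have hne : S.Nonempty := Finset.card_pos.1 (by omega)
    obtain ⟨y, hy⟩ := hne
    set S' := S.erase y with hS'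
    have hins : insert y S' = S := Finset.insert_erase hy
    have hyS' : y ∉ S' := Finset.notMem_erase _ _
    have hyθ : y ≠ θ := fun h => hθ (h ▸ hy)
    have hcard' : S'.card ≤ n := by
      rw [hS', Finset.card_erase_of_mem hy]; omega
    have hsub : S' ⊆ S := Finset.erase_subset _ _
    obtain ⟨N, hdet, hbd, hrow, hcol, hnn, hsum⟩ := hM Y θ S' (fun h => hθ (hsub h)) hcard' x hx
      (fun z hz => hxS z (hsub hz))
    set T := insert θ S' with hT
    have hyT : y ∉ T := by
      rw [hT, Finset.mem_insert, not_or]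
      exact ⟨hyθ, hyS'⟩
    have hTcard : T.card ≤ n + 1 := (Finset.card_insert_le _ _).trans (by omega)
    set z : Y → ℝ := fun i => if i ∈ T then ∑ j, (N i j : ℝ) * x j else 0 with hz
    have hz0 : ∀ i, 0 ≤ z i := by
      intro i
      simp only [hz]
      split_ifs with h
      · exact hnn i h
      · exact le_refl _
    have hzT : ∀ i ∈ T, z i = ∑ j, (N i j : ℝ) * x j := fun i hi => by
      simp only [hz, if_pos hi]
    have hzsum : ∑ i ∈ T, z i = x θ := by
      rw [← hsum]
      exact Finset.sum_congr rfl hzT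
    obtain ⟨k, j, hj, hk, hk1, hk2⟩ := u_greedy m z hz0 T (x y) (hxS y hy).1
      (by rw [hzsum]; exact (hxS y hy).2) ⟨θ, Finset.mem_insert_self _ _⟩
    have hjy : j ≠ y := fun h => hyT (h ▸ hj)
    -- the new row
    set c : Y → ℤ := fun i => if i = y then 1 else if i ∈ T then -(k i : ℤ) else 0 with hc
    set ν : Y → ℤ := ∑ i, c i • N i with hν
    have hNy : ∀ l, N y l = if y = l then 1 else 0 := hrow y hyT
    have hνl : ∀ l, ν l = (if y = l then 1 else 0) - ∑ i ∈ T, (k i : ℤ) * N i l := by
      intro l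
      have h1 : ν l = ∑ i, c i * N i l := by
        rw [hν, Finset.sum_apply]
        exact Finset.sum_congr rfl fun i _ => rfl
      rw [h1, ← Finset.add_sum_erase _ _ (Finset.mem_univ y)]
      have h2 : c y = 1 := by simp [hc]
      have h3 : ∑ i ∈ Finset.univ.erase y, c i * N i l = ∑ i ∈ T, c i * N i l := by
        symm
        refine Finset.sum_subset (fun i hi => Finset.mem_erase.2
          ⟨fun h => hyT (h ▸ hi), Finset.mem_univ _⟩) fun i hi hi' => ?_
        simp [hc, (Finset.mem_erase.1 hi).1, hi']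
      have h4 : ∑ i ∈ T, c i * N i l = -∑ i ∈ T, (k i : ℤ) * N i l := by
        rw [← Finset.sum_neg_distrib]
        refine Finset.sum_congr rfl fun i hi => ?_
        have : i ≠ y := fun h => hyT (h ▸ hi)
        simp [hc, this, hi]
      rw [h2, one_mul, h3, h4, hNy l]
      ring
    set N1 : Matrix Y Y ℤ := N.updateRow y ν with hN1
    set N2 : Matrix Y Y ℤ := N1.updateRow j (N1 j + (-1 : ℤ) • N1 y) with hN2
    have hd1 : N1.det = 1 := by
      rw [hN1, hν, Matrix.det_updateRow_sum, hdet]
      simp [hc]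
    have hd2 : N2.det = 1 := by
      rw [hN2, Matrix.det_updateRow_add_smul_self _ hjy, hd1]
    have hN1y : N1 y = ν := by rw [hN1, Matrix.updateRow_self]
    have hN1o : ∀ i, i ≠ y → N1 i = N i := fun i hi => by rw [hN1, Matrix.updateRow_ne hi]
    have hN2y : N2 y = ν := by rw [hN2, Matrix.updateRow_ne hjy.symm, hN1y]
    have hN2j : N2 j = N j - ν := by
      rw [hN2, Matrix.updateRow_self, hN1y, hN1o j hjy]
      simp [sub_eq_add_neg]
    have hN2o : ∀ i, i ≠ y → i ≠ j → N2 i = N i := fun i hi hij => by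
      rw [hN2, Matrix.updateRow_ne hij, hN1o i hi]
    have hinsT : insert θ S = insert y T := by
      rw [hT, ← hins, Finset.insert_comm]
    -- the values
    have hνx : ∑ l, (ν l : ℝ) * x l = x y - ∑ i ∈ T, k i * z i := by
      have h1 : ∀ l, (ν l : ℝ) * x l
          = (if y = l then x l else 0) - ∑ i ∈ T, (k i : ℝ) * ((N i l : ℝ) * x l) := by
        intro l
        rw [hνl l]
        push_cast
        rw [sub_mul, Finset.sum_mul]
        congr 1
        · split_ifs <;> simp
        · exact Finset.sum_congr rfl fun i _ => by ring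
      rw [Finset.sum_congr rfl fun l _ => h1 l, Finset.sum_sub_distrib, Finset.sum_comm]
      congr 1
      · simp
      · refine Finset.sum_congr rfl fun i hi => ?_
        rw [← Finset.mul_sum, hzT i hi]
    have hx' : 0 ≤ ∑ l, (ν l : ℝ) * x l := by rw [hνx]; exact hk1
    have hx'' : ∑ l, (ν l : ℝ) * x l ≤ z j := by rw [hνx]; exact hk2
    have hvj : ∑ l, (N2 j l : ℝ) * x l = z j - ∑ l, (ν l : ℝ) * x l := by
      rw [hzT j hj, ← Finset.sum_sub_distrib]
      refine Finset.sum_congr rfl fun l _ => ?_
      rw [hN2j, Pi.sub_apply]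
      push_cast
      ring
    refine ⟨N2, hd2, ?_, ?_, ?_, ?_, ?_⟩
    · -- bound
      have hν1 : ∀ l, |ν l| ≤ 1 + (n + 1) * (m * M) := by
        intro l
        rw [hνl l]
        refine (abs_sub _ _).trans (add_le_add ?_ ?_)
        · split_ifs <;> simp
        · refine (Finset.abs_sum_le_sum_abs _ _).trans ?_
          calc ∑ i ∈ T, |(k i : ℤ) * N i l| ≤ ∑ _i ∈ T, ((m : ℤ) * M) := by
                refine Finset.sum_le_sum fun i _ => ?_
                rw [abs_mul, Nat.abs_cast]
                exact mul_le_mul (by exact_mod_cast hk i) (hbd i l) (abs_nonneg _)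
                  (Nat.cast_nonneg _)
            _ = T.card * ((m : ℤ) * M) := by rw [Finset.sum_const, nsmul_eq_mul]
            _ ≤ (n + 1) * (m * M) := by
                refine mul_le_mul_of_nonneg_right ?_ (by positivity)
                exact_mod_cast hTcard
      intro i l
      have hM0 : (0 : ℤ) ≤ M := Nat.cast_nonneg _
      have hmM : (0 : ℤ) ≤ (n + 1) * (m * M) := by positivity
      push_cast
      by_cases h1 : i = y
      · rw [h1, hN2y]
        linarith [hν1 l]
      by_cases h2 : i = j
      · rw [h2, hN2j, Pi.sub_apply]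
        refine (abs_sub _ _).trans ?_
        linarith [hν1 l, hbd j l]
      · rw [hN2o i h1 h2]
        linarith [hbd i l]
    · intro i hi l
      rw [hinsT, Finset.mem_insert, not_or] at hi
      rw [hN2o i hi.1 (fun h => hi.2 (h ▸ hj))]
      exact hrow i hi.2 l
    · intro l hl i
      rw [hinsT, Finset.mem_insert, not_or] at hl
      have hNl := hcol l hl.2
      have hνl0 : ν l = 0 := by
        rw [hνl l, if_neg (fun h => hl.1 h.symm), zero_sub, neg_eq_zero]
        refine Finset.sum_eq_zero fun i hi => ?_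
        rw [hNl i, if_neg (ne_of_mem_of_not_mem hi hl.2), mul_zero]
      by_cases h1 : i = y
      · rw [h1, hN2y, hνl0, if_neg (fun h => hl.1 h.symm)]
      by_cases h2 : i = j
      · rw [h2, hN2j, Pi.sub_apply, hνl0, sub_zero, hNl j]
      · rw [hN2o i h1 h2, hNl i]
    · intro i hi
      rw [hinsT, Finset.mem_insert] at hi
      rcases hi with hi | hi
      · rw [hi, hN2y]; exact hx'
      · by_cases h2 : i = j
        · rw [h2, hvj]; linarith
        · rw [hN2o i (fun h => hyT (h ▸ hi)) h2]
          exact hnn i hi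
    · rw [hinsT, Finset.sum_insert hyT, hN2y, ← Finset.add_sum_erase _ _ hj, hvj]
      have h1 : ∑ i ∈ T.erase j, ∑ l, (N2 i l : ℝ) * x l = ∑ i ∈ T.erase j, z i := by
        refine Finset.sum_congr rfl fun i hi => ?_
        obtain ⟨hi1, hi2⟩ := Finset.mem_erase.1 hi
        rw [hN2o i (fun h => hyT (h ▸ hi2)) hi1, hzT i hi2]
      rw [h1]
      have h2 := Finset.add_sum_erase T z hj
      rw [hzsum] at h2
      linarith

end Pool.Agent.Lib.MP_17a322_nt.ABD
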