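import Pool.Agent.Lib.MP_17a322_nt.ABD.B9
import Pool.Agent.Lib.MP_17a322_nt.AB.A5

/-!
The lower bound for the minors: the sum over the places.
-/

set_option autoImplicit false
set_option linter.unusedSectionVars false

universe u

namespace Pool.Agent.Lib.MP_17a322_nt.ABD

open MvPolynomial Matrix Height NumberField
open Pool.Agent.Lib.MP_17a322_nt.EQ (Pl av FS psum l1 qv one_lt_qv hl_fs_sup hl_psum_sup hl_l1_nonneg
  hl_log_le_l1 hl_fs_l1 hl_psum_l1 hl_fs_abs hs_add hs_fs_add hs_mul hs_fs_mul hs_mono hs_nonneg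
  hs_zero hs_fs_zero hs_fs_of hs_fs_of1 hs_fs_sum hs_sum hb_lower hl_psum_lam hl_pos hl_attained
  psum_log_abv FS_log)

section

variable {K : Type u} [Field K] [NumberField K]

/-- The height is the sum of the logarithms of the local norms (also for the zero vector). -/
theorem ps_log {ι : Type} [Finite ι] (x : ι → K) :
    psum (fun v : Pl K => Real.log (⨆ i, av v (x i))) = logHeight x := by
  by_cases hx : x = 0
  · subst hx
    rw [logHeight_zero]
    have h1 : (fun v : Pl K => Real.log (⨆ i, av v ((0 : ι → K) i))) = fun _ => 0 := by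
      funext v
      have h2 : (⨆ i, av v ((0 : ι → K) i)) = 0 := by
        simp only [Pi.zero_apply, map_zero]
        exact Real.iSup_const_zero
      rw [h2, Real.log_zero]
    rw [h1, hs_zero]
  · exact hl_psum_sup hx

theorem ps_abs {t : K} (ht : t ≠ 0) (v : Pl K) :
    |Real.log (av v t)| = 2 * l1 v t + (-1) * Real.log (av v t) := by
  have h0 := (av v).pos ht
  rcases le_total 1 (av v t) with h | h
  · rw [l1, max_eq_left h, abs_of_nonneg (Real.log_nonneg h)]
    ring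
  · rw [l1, max_eq_right h, abs_of_nonpos (Real.log_nonpos h0.le h), Real.log_one]
    ring

variable {τ κ : Type} [Fintype τ] [DecidableEq τ] [Fintype κ] [DecidableEq κ]

theorem height_bd {f : κ → MvPolynomial τ K} {d : ℕ}
    (hd : d ≠ 0) (hf : ∀ a, (f a).IsHomogeneous d) {w : τ → K} (hfw : ∀ a, eval w (f a) ≠ 0)
    {ρ₀ : τ} (hw₀ : w ρ₀ ≠ 0) {t u : K} (ht : t ≠ 0) (hu : u ≠ 0)
    (hI : ∃ s : τ → κ, (Matrix.of fun l j => dl w (f (s l)) j).det ≠ 0)
    {m M M' : ℕ} (hm : 1 ≤ m) (hM1 : 1 ≤ M') (hM' : (Fintype.card τ + 1) * M ≤ M')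
    (hM : UA m M (τ ⊕ Bool)) {P : Pl K → ℝ}
    (hP : ∀ v a b, Real.log (av v (eval w (f a))) - Real.log (av v (eval w (f b))) ≤ P v)
    (h1 : ∀ v : FinitePlace K, v.val t ≤ 1 ∧ P (Sum.inr v) ≤ m * -Real.log (v.val t))
    (h2 : ∀ v : InfinitePlace K, 0 ≤ -Real.log (v.val u) ∧
      P (Sum.inl v) ≤ m * -Real.log (v.val u) ∧
      |Real.log (v.val t)| ≤ m * -Real.log (v.val u)) :
    Fintype.card (τ ⊕ Bool) *
          logHeight (fun A => eval (pt w (t * w ρ₀) (u * w ρ₀)) (Ph f d ρ₀ M' A))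
        + logHeight (fun s : τ → κ => (Matrix.of fun l j => dl w (f (s l)) j).det)
      ≤ logHeight (fun s : τ ⊕ Bool → (κ ⊕ Bool → Fin (2 * M' + 1)) → Bool =>
          (Matrix.of fun i j =>
            eval (pt w (t * w ρ₀) (u * w ρ₀)) (pderiv j (Ph f d ρ₀ M' (s i)))).det)
        + (logHeight₁ t + 2 * logHeight₁ u) := by
  have hT0 : t * w ρ₀ ≠ 0 := mul_ne_zero ht hw₀
  have hU0 : u * w ρ₀ ≠ 0 := mul_ne_zero hu hw₀
  have hd' : (d : K) ≠ 0 := by exact_mod_cast hd
  have hδ' : (dP κ d M' : K) ≠ 0 := by exact_mod_cast (dP_pos (κ := κ) d M' hM1).ne'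
  have hv : ∀ v : Pl K,
      Fintype.card (τ ⊕ Bool) *
            Real.log (⨆ A, av v (eval (pt w (t * w ρ₀) (u * w ρ₀)) (Ph f d ρ₀ M' A)))
          + Real.log (⨆ s : τ → κ, av v (Matrix.of fun l j => dl w (f (s l)) j).det)
        ≤ Real.log (⨆ s : τ ⊕ Bool → (κ ⊕ Bool → Fin (2 * M' + 1)) → Bool,
            av v (Matrix.of fun i j =>
              eval (pt w (t * w ρ₀) (u * w ρ₀)) (pderiv j (Ph f d ρ₀ M' (s i)))).det)
          + ((l1 v t + (-1) * Real.log (av v t))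
            + ((2 * l1 v u + (-1) * Real.log (av v u))
            + (Real.log (av v (t * w ρ₀)) + (Real.log (av v (u * w ρ₀))
            + (Real.log (av v (d : K)) + (-1) * Real.log (av v (dP κ d M' : K))))))) := by
    intro v
    have h3 := place_bd (av v) hd hf hfw hw₀ ht hu hI hm hM1 hM' hM (P := P v)
      (A := l1 v t + (-1) * Real.log (av v t)) (fun a b => hP v a b)
      (by linarith [hl_log_le_l1 v t]) (by linarith [hl_l1_nonneg v t]) (by
        rcases v with v | v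
        · exact Or.inr (h2 v)
        · refine Or.inl ⟨?_, (h1 v).2⟩
          have := Real.log_nonpos (v.val.nonneg t) (h1 v).1
          change 0 ≤ -Real.log (v.val t)
          linarith)
    rw [ps_abs hu v] at h3
    linarith
  have f1 := FS_log (K := K) (fun A => eval (pt w (t * w ρ₀) (u * w ρ₀)) (Ph f d ρ₀ M' A))
  have f2 := FS_log (K := K) (fun s : τ → κ => (Matrix.of fun l j => dl w (f (s l)) j).det)
  have f3 := FS_log (K := K) (fun s : τ ⊕ Bool → (κ ⊕ Bool → Fin (2 * M' + 1)) → Bool =>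
          (Matrix.of fun i j =>
            eval (pt w (t * w ρ₀) (u * w ρ₀)) (pderiv j (Ph f d ρ₀ M' (s i)))).det)
  have g1 := hl_fs_l1 (K := K) t
  have g2 := hl_fs_abs ht
  have g3 := hl_fs_l1 (K := K) u
  have g4 := hl_fs_abs hu
  have g5 := hl_fs_abs hT0
  have g6 := hl_fs_abs hU0
  have g7 := hl_fs_abs hd'
  have g8 := hl_fs_abs hδ'
  have k8 := hs_fs_mul (-1) g8
  have k7 := hs_fs_add g7 k8
  have k6 := hs_fs_add g6 k7
  have k5 := hs_fs_add g5 k6
  have k4 := hs_fs_add (hs_fs_mul 2 g3) (hs_fs_mul (-1) g4)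
  have k3 := hs_fs_add k4 k5
  have k2 := hs_fs_add g1 (hs_fs_mul (-1) g2)
  have k1 := hs_fs_add k2 k3
  have hsum := hs_mono (hs_fs_add (hs_fs_mul (Fintype.card (τ ⊕ Bool) : ℝ) f1) f2)
    (hs_fs_add f3 k1) hv
  rw [hs_add (hs_fs_mul (Fintype.card (τ ⊕ Bool) : ℝ) f1) f2, hs_mul, hs_add f3 k1, hs_add k2 k3,
    hs_add k4 k5, hs_add g5 k6, hs_add g6 k7, hs_add g7 k8, hs_mul,
    hs_add g1 (hs_fs_mul (-1) g2), hs_mul, hs_add (hs_fs_mul 2 g3) (hs_fs_mul (-1) g4), hs_mul,
    hs_mul, psum_log_abv ht, psum_log_abv hu, psum_log_abv hT0, psum_log_abv hU0,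
    psum_log_abv hd', psum_log_abv hδ', hl_psum_l1, hl_psum_l1, ps_log, ps_log, ps_log] at hsum
  linarith

end

end Pool.Agent.Lib.MP_17a322_nt.ABD
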