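import Pool.Agent.Lib.MP_17a322_nt.ABD.B10

/-!
The local distances of the values of the forms.
-/

set_option autoImplicit false
set_option linter.unusedSectionVars false

universe u

namespace Pool.Agent.Lib.MP_17a322_nt.ABD

open MvPolynomial Matrix Height NumberField
open Pool.Agent.Lib.MP_17a322_nt.EQ (Pl av FS psum l1 qv one_lt_qv hl_fs_sup hl_psum_sup hl_l1_nonneg
  hl_log_le_l1 hl_fs_l1 hl_psum_l1 hl_fs_abs hs_add hs_fs_add hs_mul hs_fs_mul hs_mono hs_nonneg
  hs_zero hs_fs_zero hs_fs_of hs_fs_of1 hs_fs_sum hs_sum hb_lower hl_psum_lam hl_fs_lam hl_pos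
  hl_attained psum_log_abv FS_log lam)

section

variable {K : Type u} [Field K] [NumberField K] {κ : Type} [Fintype κ] [DecidableEq κ]

/-- The sum of the logarithms of the quotients of the maximum and the numbers `|y_a|_v`. -/
noncomputable def PP (y : κ → K) (v : Pl K) : ℝ :=
  ∑ a, (Real.log (⨆ b, av v (y b)) + (-1) * Real.log (av v (y a)))

theorem PP_term {y : κ → K} (hy : ∀ a, y a ≠ 0) (v : Pl K) (a : κ) :
    0 ≤ Real.log (⨆ b, av v (y b)) + (-1) * Real.log (av v (y a)) := by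
  have h1 : av v (y a) ≤ ⨆ b, av v (y b) := Finite.le_ciSup (fun b => av v (y b)) a
  have := Real.log_le_log ((av v).pos (hy a)) h1
  linarith

theorem PP_nonneg {y : κ → K} (hy : ∀ a, y a ≠ 0) (v : Pl K) : 0 ≤ PP y v :=
  Finset.sum_nonneg fun a _ => PP_term hy v a

theorem PP_le {y : κ → K} (hy : ∀ a, y a ≠ 0) (v : Pl K) (a b : κ) :
    Real.log (av v (y a)) - Real.log (av v (y b)) ≤ PP y v := by
  have h1 : av v (y a) ≤ ⨆ b, av v (y b) := Finite.le_ciSup (fun b => av v (y b)) a
  have h2 := Real.log_le_log ((av v).pos (hy a)) h1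
  have h3 := Finset.single_le_sum (f := fun a => Real.log (⨆ b, av v (y b)) +
    (-1) * Real.log (av v (y a))) (fun a _ => PP_term hy v a) (Finset.mem_univ b)
  have h4 : PP y v = ∑ a, (Real.log (⨆ b, av v (y b)) + (-1) * Real.log (av v (y a))) := rfl
  rw [h4]
  linarith

theorem PP_fs {y : κ → K} (hy : ∀ a, y a ≠ 0) : FS (PP y) :=
  hs_fs_sum _ (fun a v => Real.log (⨆ b, av v (y b)) + (-1) * Real.log (av v (y a)))
    fun a _ => hs_fs_add (FS_log y) (hs_fs_mul (-1) (hl_fs_abs (hy a)))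

theorem PP_psum {y : κ → K} (hy : ∀ a, y a ≠ 0) :
    psum (PP y) = Fintype.card κ * logHeight y := by
  have h1 : psum (PP y) = ∑ a : κ, psum fun v : Pl K =>
      Real.log (⨆ b, av v (y b)) + (-1) * Real.log (av v (y a)) :=
    hs_sum Finset.univ (fun a v => Real.log (⨆ b, av v (y b)) + (-1) * Real.log (av v (y a)))
      fun a _ => hs_fs_add (FS_log y) (hs_fs_mul (-1) (hl_fs_abs (hy a)))
  rw [h1]
  have h2 : ∀ a, psum (fun v : Pl K => Real.log (⨆ b, av v (y b)) + (-1) * Real.log (av v (y a)))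
      = logHeight y := by
    intro a
    rw [hs_add (FS_log y) (hs_fs_mul (-1) (hl_fs_abs (hy a))), hs_mul, psum_log_abv (hy a),
      ps_log]
    ring
  rw [Finset.sum_congr rfl fun a _ => h2 a, Finset.sum_const, Finset.card_univ, nsmul_eq_mul]

/-- The finite places at which the absolute values are not all equal. -/
theorem rad_fin {y : κ → K} (hy : ∀ a, y a ≠ 0) :
    {v : FinitePlace K | ∃ a b, v (y a) ≠ v (y b)}.Finite := by
  refine (PP_fs hy).subset fun w hw h => ?_
  obtain ⟨a, b, hab⟩ := hw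
  refine hab ?_
  have h1 := PP_le hy (Sum.inr w) a b
  have h2 := PP_le hy (Sum.inr w) b a
  have h3 : PP y (Sum.inr w) = 0 := h
  rw [h3] at h1 h2
  have h4 : Real.log (w.val (y a)) = Real.log (w.val (y b)) := by
    change Real.log (w.val (y a)) - Real.log (w.val (y b)) ≤ 0 at h1
    change Real.log (w.val (y b)) - Real.log (w.val (y a)) ≤ 0 at h2
    linarith
  exact Real.log_injOn_pos (w.val.pos (hy a)) (w.val.pos (hy b)) h4

theorem PP_out {y : κ → K} (w : FinitePlace K)
    (h : w ∉ {v : FinitePlace K | ∃ a b, v (y a) ≠ v (y b)}) : PP y (Sum.inr w) = 0 := by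
  have h1 : ∀ a b, w (y a) = w (y b) := by
    intro a b
    by_contra hc
    exact h ⟨a, b, hc⟩
  refine Finset.sum_eq_zero fun a _ => ?_
  have hne : Nonempty κ := ⟨a⟩
  have h2 : (⨆ b, av (Sum.inr w) (y b)) = av (Sum.inr w) (y a) := by
    have : (fun b => av (Sum.inr w) (y b)) = fun _ => av (Sum.inr w) (y a) :=
      funext fun b => h1 b a
    rw [this, ciSup_const]
  rw [h2]
  ring

theorem rad_le {y : κ → K} (hy : ∀ a, y a ≠ 0) :
    ∑ w ∈ (rad_fin hy).toFinset, Real.log (qv w) ≤ psum (PP y) := by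
  classical
  have h1 : psum (AB.rdv y) ≤ psum (PP y) := by
    refine hs_mono (AB.FS_rdv hy) (PP_fs hy) fun v => ?_
    rcases v with v | v
    · exact PP_nonneg hy _
    · simp only [AB.rdv]
      split_ifs with h
      · obtain ⟨a, b, hab⟩ := h
        rcases lt_or_gt_of_ne hab with h' | h'
        · have := AB.log_gap v (hy a) (hy b) h'
          have h3 := PP_le hy (Sum.inr v) b a
          change Real.log (v.val (y b)) - Real.log (v.val (y a)) ≤ _ at h3
          linarith
        · have := AB.log_gap v (hy b) (hy a) h'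
          have h3 := PP_le hy (Sum.inr v) a b
          change Real.log (v.val (y a)) - Real.log (v.val (y b)) ≤ _ at h3
          linarith
      · exact PP_nonneg hy _
  rw [AB.psum_rdv, finsum_mem_eq_finite_toFinset_sum _ (rad_fin hy)] at h1
  exact h1

/-- The height of the values of forms. -/
theorem height_val {τ : Type} [Fintype τ] {f : κ → MvPolynomial τ K} {d : ℕ}
    (hf : ∀ a, (f a).IsHomogeneous d) : ∃ C : ℝ, 0 ≤ C ∧ ∀ w : τ → K, w ≠ 0 →
      (∃ a, eval w (f a) ≠ 0) → logHeight (fun a => eval w (f a)) ≤ d * logHeight w + C := by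
  obtain ⟨c, hc0, hcfs, hc⟩ := hb_lower (K := K) (β := Unit) d (fun _ => f) (fun _ a => hf a)
  refine ⟨psum c, hs_nonneg hc0, fun w hw hfw => ?_⟩
  have h1 := hl_psum_lam (K := K) d f hw hfw
  have h2 : psum (fun v => (-1) * c v) ≤ psum (fun v => lam (av v) d f w) := by
    refine hs_mono (hs_fs_mul (-1) hcfs) (hl_fs_lam d f hw hfw) fun v => ?_
    have := hc w () hw hfw v
    linarith
  rw [hs_mul, h1] at h2
  linarith

end

section

variable {K : Type u} [Field K] [NumberField K] {τ : Type} [Fintype τ]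

/-- The height of the point with the new coordinates. -/
theorem height_pt {w : τ → K} {ρ₀ : τ} (hw₀ : w ρ₀ ≠ 0) (t u : K) :
    logHeight (pt w (t * w ρ₀) (u * w ρ₀)) ≤ logHeight w + (logHeight₁ t + logHeight₁ u) := by
  have hw : w ≠ 0 := fun h => hw₀ (by rw [h]; rfl)
  have hz : pt w (t * w ρ₀) (u * w ρ₀) ≠ 0 := by
    intro h
    exact hw₀ (congrFun h (Sum.inl ρ₀))
  rw [← hl_psum_sup hz, ← hl_psum_sup hw, ← hl_psum_l1, ← hl_psum_l1,
    ← hs_add (hl_fs_l1 t) (hl_fs_l1 u), ← hs_add (hl_fs_sup hw) (hs_fs_add (hl_fs_l1 t) (hl_fs_l1 u))]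
  refine hs_mono (hl_fs_sup hz) (hs_fs_add (hl_fs_sup hw) (hs_fs_add (hl_fs_l1 t) (hl_fs_l1 u)))
    fun v => ?_
  have h1 : 0 < ⨆ i, av v (w i) := hl_pos (av v) hw
  have h3 : ∀ i, av v (w i) ≤ ⨆ i, av v (w i) := fun i =>
    Finite.le_ciSup (fun i => av v (w i)) i
  have a1 : 1 ≤ max (av v t) 1 := le_max_right _ _
  have a2 : 1 ≤ max (av v u) 1 := le_max_right _ _
  have e : Real.log (⨆ i, av v (w i)) + (l1 v t + l1 v u)
      = Real.log ((⨆ i, av v (w i)) * (max (av v t) 1 * max (av v u) 1)) := by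
    rw [Real.log_mul h1.ne' (by positivity), Real.log_mul (by positivity) (by positivity)]
    rfl
  rw [e]
  refine Real.log_le_log (hl_pos (av v) hz) ?_
  have hne : Nonempty (τ ⊕ Bool) := ⟨Sum.inl ρ₀⟩
  have a3 : 1 ≤ max (av v t) 1 * max (av v u) 1 := one_le_mul_of_one_le_of_one_le a1 a2
  refine ciSup_le fun x => ?_
  rcases x with i | b
  · exact (h3 i).trans (le_mul_of_one_le_right h1.le a3)
  · cases b
    · change av v (u * w ρ₀) ≤ _
      rw [map_mul, mul_comm]
      refine mul_le_mul (h3 ρ₀) ?_ ((av v).nonneg _) h1.le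
      calc av v u ≤ 1 * max (av v u) 1 := by rw [one_mul]; exact le_max_left _ _
        _ ≤ _ := mul_le_mul_of_nonneg_right a1 (by positivity)
    · change av v (t * w ρ₀) ≤ _
      rw [map_mul, mul_comm]
      refine mul_le_mul (h3 ρ₀) ?_ ((av v).nonneg _) h1.le
      calc av v t ≤ max (av v t) 1 * 1 := by rw [mul_one]; exact le_max_left _ _
        _ ≤ _ := mul_le_mul_of_nonneg_left a2 (by positivity)

end

end Pool.Agent.Lib.MP_17a322_nt.ABD
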