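import Pool.Agent.Lib.MP_17a322_nt.ABD.B10
import Pool.Agent.Lib.MP_17a322_nt.EQ.Q6

/-!
The choice of the two auxiliary numbers.
-/

set_option autoImplicit false
set_option linter.unusedSectionVars false

universe u

namespace Pool.Agent.Lib.MP_17a322_nt.ABD

open Matrix Height NumberField
open Pool.Agent.Lib.MP_17a322_nt.EQ

section

variable {K : Type u} [Field K] [NumberField K]

theorem inf_le_psum {F : Pl K → ℝ} (h : ∀ v, 0 ≤ F v) :
    ∑ w : InfinitePlace K, (w.mult : ℝ) * F (Sum.inl w) ≤ psum F := by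
  unfold psum
  have : 0 ≤ ∑ᶠ w : FinitePlace K, F (Sum.inr w) := finsum_nonneg fun w => h _
  linarith

theorem psum_abs {t : K} (ht : t ≠ 0) :
    psum (fun v : Pl K => |Real.log (av v t)|) = 2 * logHeight₁ t := by
  have h1 : (fun v : Pl K => |Real.log (av v t)|)
      = fun v => 2 * l1 v t + (-1) * Real.log (av v t) := funext fun v => ps_abs ht v
  rw [h1, hs_add (hs_fs_mul 2 (hl_fs_l1 t)) (hs_fs_mul (-1) (hl_fs_abs ht)), hs_mul, hs_mul,
    hl_psum_l1, psum_log_abv ht]
  ring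

theorem choose_tu (K : Type u) [Field K] [NumberField K] (D m : ℕ) (hm : 1 ≤ m) :
    ∃ C : ℝ, 0 ≤ C ∧ ∀ (P : Pl K → ℝ) (T : Finset (FinitePlace K)), (∀ v, 0 ≤ P v) → FS P →
      (∀ v, v ∉ T → P (Sum.inr v) = 0) →
      ∃ t u : K, t ≠ 0 ∧ u ≠ 0 ∧ ∀ j j' : ℕ, 1 ≤ j → j ≤ D → 1 ≤ j' → j' ≤ D →
        (∀ v : FinitePlace K, v.val ((j : K) * t) ≤ 1 ∧
          P (Sum.inr v) ≤ m * -Real.log (v.val ((j : K) * t))) ∧
        (∀ v : InfinitePlace K, 0 ≤ -Real.log (v.val ((j' : K) * u)) ∧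
          P (Sum.inl v) ≤ m * -Real.log (v.val ((j' : K) * u)) ∧
          |Real.log (v.val ((j : K) * t))| ≤ m * -Real.log (v.val ((j' : K) * u))) ∧
        logHeight₁ ((j : K) * t) ≤ (∑ v ∈ T, Real.log (qv v)) + 1 / m * psum P + C ∧
        logHeight₁ ((j' : K) * u) ≤ 1 / m * psum P
          + 2 / m * ((∑ v ∈ T, Real.log (qv v)) + 1 / m * psum P) + C := by
  classical
  obtain ⟨C1, hC1⟩ := exists_t_integral K
  obtain ⟨C2, hC2⟩ := exists_t_poles (K := K) ∅
  obtain ⟨C3, hC30, hC3⟩ := hh_nat K D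
  set L : ℝ := Real.log ((D : ℝ) + 1) with hL
  have hL0 : 0 ≤ L := Real.log_nonneg (by linarith [Nat.cast_nonneg (α := ℝ) D])
  set dm : ℝ := ∑ w : InfinitePlace K, (w.mult : ℝ) with hdm
  have hdm0 : 0 ≤ dm := Finset.sum_nonneg fun w _ => Nat.cast_nonneg _
  have hm1 : (1 : ℝ) ≤ m := by exact_mod_cast hm
  have hm0 : (0 : ℝ) < m := by linarith
  set z : ℝ := 1 / (m : ℝ) with hz
  have hz0 : 0 < z := by positivity
  have hz1 : z ≤ 1 := by rw [hz, div_le_one hm0]; exact hm1
  have hmz : (m : ℝ) * z = 1 := by rw [hz]; field_simp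
  refine ⟨3 * |C1| + |C2| + C3 + 2 * (dm * L), by positivity, fun P T hP0 hPfs hPT => ?_⟩
  have hlq : ∀ w : FinitePlace K, 0 < Real.log (qv w) := fun w => Real.log_pos (one_lt_qv w)
  set k : FinitePlace K → ℕ := fun w => ⌈P (Sum.inr w) / (m * Real.log (qv w))⌉₊ with hk
  have hk1 : ∀ w, P (Sum.inr w) ≤ m * (k w * Real.log (qv w)) := by
    intro w
    have h1 := Nat.le_ceil (P (Sum.inr w) / (m * Real.log (qv w)))
    rw [div_le_iff₀ (mul_pos hm0 (hlq w))] at h1
    calc _ ≤ _ := h1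
      _ = _ := by ring
  have hk2 : ∀ w, k w * Real.log (qv w) ≤ z * P (Sum.inr w) + Real.log (qv w) := by
    intro w
    have h1 := (Nat.ceil_lt_add_one (div_nonneg (hP0 (Sum.inr w))
      (mul_pos hm0 (hlq w)).le)).le
    calc (k w : ℝ) * Real.log (qv w)
        ≤ (P (Sum.inr w) / (m * Real.log (qv w)) + 1) * Real.log (qv w) :=
          mul_le_mul_of_nonneg_right h1 (hlq w).le
      _ = _ := by
        have := (hlq w).ne'
        rw [hz]
        field_simp
  obtain ⟨t, ht0, htT, htint, hth⟩ := hC1 T k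
  set ρ : InfinitePlace K → ℝ := fun w =>
    z * (P (Sum.inl w) + |Real.log (w.val t)| + L) + L with hρ
  have hρ0 : ∀ w, 0 ≤ ρ w := fun w =>
    add_nonneg (mul_nonneg hz0.le (add_nonneg (add_nonneg (hP0 _) (abs_nonneg _)) hL0)) hL0
  obtain ⟨u, hu0, -, huw, huh⟩ := hC2 (fun _ => 0) ρ (fun v hv => absurd hv (by simp)) hρ0
  -- heights
  set R : ℝ := ∑ v ∈ T, Real.log (qv v) with hR
  have hh1 : logHeight₁ t ≤ R + z * psum P + C1 := by
    have h2 := Finset.sum_le_sum fun w (_ : w ∈ T) => hk2 w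
    rw [Finset.sum_add_distrib, ← Finset.mul_sum] at h2
    have h3 := mul_le_mul_of_nonneg_left (ht_sum_le T P hP0 hPfs) hz0.le
    linarith
  have hh2 : logHeight₁ u ≤ z * psum P + 2 * z * (R + z * psum P) + (2 * |C1| + |C2|
      + 2 * (dm * L)) := by
    have e1 : ∑ w : InfinitePlace K, (w.mult : ℝ) * ρ w
        = z * ∑ w : InfinitePlace K, (w.mult : ℝ) * P (Sum.inl w)
          + z * ∑ w : InfinitePlace K, (w.mult : ℝ) * |Real.log (w.val t)|
          + (z + 1) * (dm * L) := by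
      rw [hdm, Finset.sum_mul, Finset.mul_sum, Finset.mul_sum, Finset.mul_sum,
        ← Finset.sum_add_distrib, ← Finset.sum_add_distrib]
      refine Finset.sum_congr rfl fun w _ => ?_
      simp only [hρ]
      ring
    have e2 := inf_le_psum (K := K) (F := P) hP0
    have e3 := inf_le_psum (K := K) (F := fun v => |Real.log (av v t)|) fun v => abs_nonneg _
    rw [psum_abs ht0] at e3
    have e3' : ∑ w : InfinitePlace K, (w.mult : ℝ) * |Real.log (w.val t)| ≤ 2 * logHeight₁ t := e3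
    rw [Finset.sum_empty, zero_add, e1] at huh
    have e4 := mul_le_mul_of_nonneg_left e2 hz0.le
    have e5 := mul_le_mul_of_nonneg_left (e3'.trans (mul_le_mul_of_nonneg_left hh1
      (by norm_num : (0 : ℝ) ≤ 2))) hz0.le
    have e6 : (z + 1) * (dm * L) ≤ 2 * (dm * L) :=
      mul_le_mul_of_nonneg_right (by linarith) (mul_nonneg hdm0 hL0)
    have e7 : z * (2 * C1) ≤ 2 * |C1| := by
      calc z * (2 * C1) ≤ z * (2 * |C1|) :=
            mul_le_mul_of_nonneg_left (by linarith [le_abs_self C1]) hz0.le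
        _ ≤ 1 * (2 * |C1|) := mul_le_mul_of_nonneg_right hz1 (by positivity)
        _ = _ := one_mul _
    have e8 := le_abs_self C2
    have e9 : z * (2 * (R + z * psum P + C1)) = 2 * z * (R + z * psum P) + z * (2 * C1) := by ring
    rw [e9] at e5
    linarith
  refine ⟨t, u, ht0, hu0, fun j j' hj1 hj2 hj1' hj2' => ?_⟩
  have hj0 : (j : K) ≠ 0 := by exact_mod_cast (by omega : j ≠ 0)
  have hj0' : (j' : K) ≠ 0 := by exact_mod_cast (by omega : j' ≠ 0)
  have hjt : (j : K) * t ≠ 0 := mul_ne_zero hj0 ht0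
  have hju : (j' : K) * u ≠ 0 := mul_ne_zero hj0' hu0
  have hjL : ∀ i : ℕ, 1 ≤ i → i ≤ D → 0 ≤ Real.log (i : ℝ) ∧ Real.log (i : ℝ) ≤ L := by
    intro i hi1 hi2
    have a1 : (1 : ℝ) ≤ i := by exact_mod_cast hi1
    have a2 : (i : ℝ) ≤ D := by exact_mod_cast hi2
    exact ⟨Real.log_nonneg a1, Real.log_le_log (by linarith) (by linarith)⟩
  have hlogu : ∀ v : InfinitePlace K,
      z * (P (Sum.inl v) + |Real.log (v.val t)| + L) ≤ -Real.log (v.val ((j' : K) * u)) := by
    intro v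
    have h1 : v.val ((j' : K) * u) = j' * v.val u := hh_inf_nat v j' u
    have h2 : (0 : ℝ) < j' := by exact_mod_cast (by omega : 0 < j')
    have h3 : Real.log (v.val u) ≤ -ρ v := by
      have := Real.log_le_log (v.val.pos hu0) (huw v)
      rwa [Real.log_exp] at this
    rw [h1, Real.log_mul h2.ne' (v.val.pos hu0).ne']
    have h4 := (hjL j' hj1' hj2').2
    simp only [hρ] at h3
    linarith
  refine ⟨fun v => ⟨(hh_fin_nat_le v j t).trans (htint v), ?_⟩, fun v => ?_, ?_, ?_⟩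
  · by_cases hv : v ∈ T
    · refine (hk1 v).trans (mul_le_mul_of_nonneg_left ?_ hm0.le)
      have hq1 : 0 < qv v ^ k v := pow_pos (lt_trans one_pos (one_lt_qv v)) _
      have h6 : v.val t * qv v ^ k v ≤ 1 := htT v hv
      have h7 : Real.log (v.val t) + k v * Real.log (qv v) ≤ 0 := by
        rw [← Real.log_pow, ← Real.log_mul (v.val.pos ht0).ne' hq1.ne']
        exact Real.log_nonpos (mul_nonneg (v.val.nonneg _) hq1.le) h6
      have h8 : Real.log (v.val ((j : K) * t)) ≤ Real.log (v.val t) :=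
        Real.log_le_log (v.val.pos hjt) (hh_fin_nat_le v j t)
      linarith
    · rw [hPT v hv]
      have h8 : Real.log (v.val ((j : K) * t)) ≤ 0 :=
        Real.log_nonpos (v.val.nonneg _) ((hh_fin_nat_le v j t).trans (htint v))
      exact mul_nonneg hm0.le (by linarith)
  · have h1 := hlogu v
    have h2 : 0 ≤ |Real.log (v.val t)| := abs_nonneg _
    have h3 := mul_le_mul_of_nonneg_left h1 hm0.le
    rw [← mul_assoc, hmz, one_mul] at h3
    have h4 := hP0 (Sum.inl v)
    refine ⟨le_trans (mul_nonneg hz0.le (by linarith)) h1, by linarith, ?_⟩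
    have h5 : v.val ((j : K) * t) = j * v.val t := hh_inf_nat v j t
    have h6 : (0 : ℝ) < j := by exact_mod_cast (by omega : 0 < j)
    have h7 : |Real.log (v.val ((j : K) * t))| ≤ |Real.log (v.val t)| + L := by
      rw [h5, Real.log_mul h6.ne' (v.val.pos ht0).ne']
      obtain ⟨a1, a2⟩ := hjL j hj1 hj2
      have := abs_add_le (Real.log (j : ℝ)) (Real.log (v.val t))
      rw [abs_of_nonneg a1] at this
      linarith
    linarith
  · have h1 := hC3 j hj2 t
    have h2 := le_abs_self C1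
    have h3 := abs_nonneg C1
    have h4 := abs_nonneg C2
    have h5 : 0 ≤ dm * L := mul_nonneg hdm0 hL0
    linarith
  · have h1 := hC3 j' hj2' u
    have h2 : (2 : ℝ) / m = 2 * z := by rw [hz]; ring
    have h3 := abs_nonneg C1
    rw [h2]
    linarith

end

end Pool.Agent.Lib.MP_17a322_nt.ABD
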