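import Pool.Agent.Lib.MP_17a322_nt.ABD.B6

/-!
The exceptional form in the variables `w`, `T`, `U`.
-/

set_option autoImplicit false
set_option linter.unusedSectionVars false

universe u

namespace Pool.Agent.Lib.MP_17a322_nt.ABD

open MvPolynomial

section

variable {K : Type u} [Field K] [CharZero K]

/-- A polynomial which is not zero on a line is not zero at one of the points `1, …, N + 1`. -/
theorem one_step {σ : Type} {G : MvPolynomial σ K} {N : ℕ} (hG : G.totalDegree ≤ N)
    (p : σ → Polynomial K) (hp : ∀ i, (p i).natDegree ≤ 1) (x : K)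
    (hx : eval (fun i => (p i).eval x) G ≠ 0) :
    ∃ j : ℕ, 1 ≤ j ∧ j ≤ N + 1 ∧ eval (fun i => (p i).eval (j : K)) G ≠ 0 := by
  classical
  have hev : ∀ x : K, (aeval p G).eval x = eval (fun i => (p i).eval x) G := by
    intro x
    have h1 : (Polynomial.evalRingHom x).comp (aeval (R := K) p).toRingHom
        = eval (fun i => (p i).eval x) := by
      refine MvPolynomial.ringHom_ext (fun c => ?_) fun i => ?_
      · simp
      · simp
    exact congrArg (fun g => g G) h1
  by_contra hc
  push Not at hc
  have hdeg : (aeval p G).natDegree ≤ N := by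
    have := aeval_natDegree_le G hG p hp
    simpa using this
  have h0 : aeval p G = 0 := by
    refine Polynomial.eq_zero_of_natDegree_lt_card_of_eval_eq_zero' (aeval p G)
      ((Finset.Icc 1 (N + 1)).image fun j : ℕ => (j : K)) (fun y hy => ?_) ?_
    · obtain ⟨j, hj, rfl⟩ := Finset.mem_image.1 hy
      rw [Finset.mem_Icc] at hj
      rw [hev]
      exact hc j hj.1 hj.2
    · rw [Finset.card_image_of_injective _ Nat.cast_injective, Nat.card_Icc]
      omega
  rw [← hev, h0, Polynomial.eval_zero] at hx
  exact hx rfl

theorem eval_lin {τ : Type} (ρ₀ : τ) (c : Bool → K) (G : MvPolynomial (τ ⊕ Bool) K) (w : τ → K) :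
    eval w (aeval (Sum.elim X fun b => C (c b) * X ρ₀ : τ ⊕ Bool → MvPolynomial τ K) G)
      = eval (pt w (c true * w ρ₀) (c false * w ρ₀)) G := by
  have h1 : (eval w).comp (aeval (R := K) (Sum.elim X fun b => C (c b) * X ρ₀ :
      τ ⊕ Bool → MvPolynomial τ K)).toRingHom = eval (pt w (c true * w ρ₀) (c false * w ρ₀)) := by
    refine MvPolynomial.ringHom_ext (fun c => ?_) fun i => ?_
    · simp
    · rcases i with i | b
      · simp [pt]
      · cases b <;> simp [pt]
  exact congrArg (fun g => g G) h1

theorem box_form {τ : Type} [Fintype τ] {G : MvPolynomial (τ ⊕ Bool) K} (hG : G ≠ 0) {N : ℕ}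
    (hGh : G.IsHomogeneous N) (ρ₀ : τ) :
    ∃ g : MvPolynomial τ K, g ≠ 0 ∧ g.IsHomogeneous N ∧
      ∀ w : τ → K, eval w g ≠ 0 → w ρ₀ ≠ 0 → ∀ t u : K, t ≠ 0 → u ≠ 0 →
        ∃ j j' : ℕ, 1 ≤ j ∧ j ≤ N + 1 ∧ 1 ≤ j' ∧ j' ≤ N + 1 ∧
          eval (pt w ((j * t) * w ρ₀) ((j' * u) * w ρ₀)) G ≠ 0 := by
  have h0 : G * X (Sum.inl ρ₀) ≠ 0 := mul_ne_zero hG (X_ne_zero _)
  obtain ⟨p, hp⟩ : ∃ p : τ ⊕ Bool → K, eval p (G * X (Sum.inl ρ₀)) ≠ 0 := by
    by_contra hc
    push Not at hc
    exact h0 (MvPolynomial.funext fun p => by rw [hc p, map_zero])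
  rw [map_mul, eval_X] at hp
  have hp1 := left_ne_zero_of_mul hp
  have hp2 := right_ne_zero_of_mul hp
  set w₁ : τ → K := fun i => p (Sum.inl i) with hw₁
  set c : Bool → K := fun b => p (Sum.inr b) / w₁ ρ₀ with hc
  have hpt : pt w₁ (c true * w₁ ρ₀) (c false * w₁ ρ₀) = p := by
    funext x
    rcases x with i | b
    · rfl
    · cases b
      · exact div_mul_cancel₀ _ hp2
      · exact div_mul_cancel₀ _ hp2
  refine ⟨aeval (Sum.elim X fun b => C (c b) * X ρ₀ : τ ⊕ Bool → MvPolynomial τ K) G, ?_, ?_, ?_⟩
  · intro h
    have := eval_lin ρ₀ c G w₁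
    rw [h, map_zero, hpt] at this
    exact hp1 this.symm
  · have h2 := hGh.aeval (Sum.elim X fun b => C (c b) * X ρ₀ : τ ⊕ Bool → MvPolynomial τ K)
      (n := 1) (by
        rintro (i | b)
        · exact isHomogeneous_X K i
        · have h3 := (isHomogeneous_C τ (c b)).mul (isHomogeneous_X K ρ₀)
          rwa [zero_add] at h3)
    rwa [one_mul] at h2
  · intro w hgw hw₀ t u ht hu
    rw [eval_lin] at hgw
    -- the first variable
    obtain ⟨j, hj1, hj2, hj⟩ := one_step hGh.totalDegree_le
      (fun x : τ ⊕ Bool => Sum.elim (fun i => Polynomial.C (w i))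
        (fun b => if b then Polynomial.C (t * w ρ₀) * Polynomial.X
          else Polynomial.C (c false * w ρ₀)) x) (by
        rintro (i | b)
        · simp
        · cases b
          · simp only [Sum.elim_inr, Bool.false_eq_true, if_false]
            rw [Polynomial.natDegree_C]
            omega
          · simp only [Sum.elim_inr, if_true]
            exact (Polynomial.natDegree_C_mul_le _ _).trans Polynomial.natDegree_X_le) (c true / t) (by
        have h4 : (fun x : τ ⊕ Bool => (Sum.elim (fun i => Polynomial.C (w i))
            (fun b => if b then Polynomial.C (t * w ρ₀) * Polynomial.X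
              else Polynomial.C (c false * w ρ₀)) x).eval (c true / t))
            = pt w (c true * w ρ₀) (c false * w ρ₀) := by
          funext x
          rcases x with i | b
          · simp [pt]
          · cases b
            · simp [pt]
            · simp [pt]
              field_simp
        rw [h4]
        exact hgw)
    have h5 : (fun x : τ ⊕ Bool => (Sum.elim (fun i => Polynomial.C (w i))
            (fun b => if b then Polynomial.C (t * w ρ₀) * Polynomial.X
              else Polynomial.C (c false * w ρ₀)) x).eval (j : K))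
            = pt w ((j * t) * w ρ₀) (c false * w ρ₀) := by
      funext x
      rcases x with i | b
      · simp [pt]
      · cases b
        · simp [pt]
        · simp [pt]
          ring
    rw [h5] at hj
    -- the second variable
    obtain ⟨j', hj1', hj2', hj'⟩ := one_step hGh.totalDegree_le
      (fun x : τ ⊕ Bool => Sum.elim (fun i => Polynomial.C (w i))
        (fun b => if b then Polynomial.C ((j * t) * w ρ₀)
          else Polynomial.C (u * w ρ₀) * Polynomial.X) x) (by
        rintro (i | b)
        · simp
        · cases b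
          · simp only [Sum.elim_inr, Bool.false_eq_true, if_false]
            exact (Polynomial.natDegree_C_mul_le _ _).trans Polynomial.natDegree_X_le
          · simp only [Sum.elim_inr, if_true]
            rw [Polynomial.natDegree_C]
            omega) (c false / u) (by
        have h4 : (fun x : τ ⊕ Bool => (Sum.elim (fun i => Polynomial.C (w i))
            (fun b => if b then Polynomial.C ((j * t) * w ρ₀)
              else Polynomial.C (u * w ρ₀) * Polynomial.X) x).eval (c false / u))
            = pt w ((j * t) * w ρ₀) (c false * w ρ₀) := by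
          funext x
          rcases x with i | b
          · simp [pt]
          · cases b
            · simp [pt]
              field_simp
            · simp [pt]
        rw [h4]
        exact hj)
    refine ⟨j, j', hj1, hj2, hj1', hj2', ?_⟩
    have h6 : (fun x : τ ⊕ Bool => (Sum.elim (fun i => Polynomial.C (w i))
            (fun b => if b then Polynomial.C ((j * t) * w ρ₀)
              else Polynomial.C (u * w ρ₀) * Polynomial.X) x).eval (j' : K))
            = pt w ((j * t) * w ρ₀) ((j' * u) * w ρ₀) := by
      funext x
      rcases x with i | b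
      · simp [pt]
      · cases b
        · simp [pt]
          ring
        · simp [pt]
    rw [h6] at hj'
    exact hj'

end

end Pool.Agent.Lib.MP_17a322_nt.ABD
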