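import Pool.Agent.Lib.MP_17a322_nt.JAC.Defs
import Pool.Agent.Lib.MP_17a322_nt.ABD.B11
import Pool.Agent.Lib.MP_17a322_nt.ABD.Z1
import Pool.Agent.Lib.MP_17a322_nt.ABD.Y1

/-!
The inequality for the Jacobian minors of rational maps implies the abc inequality for forms.
-/

set_option autoImplicit false
set_option linter.unusedSectionVars false

universe u

namespace Pool.Agent.Lib.MP_17a322_nt.ABD

open MvPolynomial Matrix Height NumberField
open Pool.Agent.Lib.MP_17a322_nt.EQ (Pl av FS psum l1 qv)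
open Pool.Agent.Lib.MP_17a322_nt.AB (ABCIneq)
open Pool.Agent.Lib.MP_17a322_nt.JAC (JacIneq)

/-- The inequality for the Jacobian minors of rational maps implies the abc inequality for forms. -/
theorem abc_of_jac {K : Type u} [Field K] [NumberField K] (hJ : JacIneq K) : ABCIneq K := by
  intro τ κ _ _ _ _ f d hf ε hε
  classical
  have hrad0 : ∀ w : τ → K, 0 ≤ ∑ᶠ v ∈ {v : FinitePlace K | ∃ a b, v (eval w (f a)) ≠
      v (eval w (f b))}, Real.log (Ideal.absNorm v.maximalIdeal.asIdeal) := by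
    intro w
    rw [← AB.psum_rdv]
    refine EQ.hs_nonneg fun v => ?_
    rcases v with v | v
    · exact le_refl _
    · simp only [AB.rdv]
      split_ifs
      · exact (Real.log_pos (EQ.one_lt_qv v)).le
      · exact le_refl _
  -- the trivial cases
  have triv : (∀ w : τ → K, logHeight (fun s : τ → κ => (Matrix.of fun i j =>
      eval w (pderiv j (f (s i)))).det * ∏ a ∈ (Finset.univ.image s)ᶜ, eval w (f a)) = 0) →
      ∃ (G : MvPolynomial τ K) (C : ℝ), G ≠ 0 ∧ (∃ d', G.IsHomogeneous d') ∧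
      ∀ w : τ → K, eval w G ≠ 0 →
        logHeight (fun s : τ → κ => (Matrix.of fun i j => eval w (pderiv j (f (s i)))).det *
            ∏ a ∈ (Finset.univ.image s)ᶜ, eval w (f a)) ≤
          (∑ᶠ v ∈ {v : FinitePlace K | ∃ a b, v (eval w (f a)) ≠ v (eval w (f b))},
            Real.log (Ideal.absNorm v.maximalIdeal.asIdeal)) + ε * logHeight w + C := by
    intro h
    refine ⟨1, 0, one_ne_zero, ⟨0, isHomogeneous_one _ _⟩, fun w _ => ?_⟩
    rw [h w, add_zero]
    exact add_nonneg (hrad0 w) (mul_nonneg hε.le (logHeight_nonneg _))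
  rcases isEmpty_or_nonempty τ with hτ | ⟨⟨ρ₀⟩⟩
  · refine triv fun w => ?_
    by_cases h0 : (fun s : τ → κ => (Matrix.of fun i j =>
      eval w (pderiv j (f (s i)))).det * ∏ a ∈ (Finset.univ.image s)ᶜ, eval w (f a)) = 0
    · rw [h0, logHeight_zero]
    · obtain ⟨s0, hs0⟩ := Function.ne_iff.1 h0
      have h1 : (fun s : τ → κ => (Matrix.of fun i j =>
          eval w (pderiv j (f (s i)))).det * ∏ a ∈ (Finset.univ.image s)ᶜ, eval w (f a))
          = fun _ => ((Matrix.of fun i j => eval w (pderiv j (f (s0 i)))).det *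
            ∏ a ∈ (Finset.univ.image s0)ᶜ, eval w (f a)) := by
        funext s
        rw [Subsingleton.elim s s0]
      rw [h1, ← EQ.hl_psum_sup (fun h => hs0 (congrFun h s0))]
      have hne : Nonempty (τ → κ) := ⟨s0⟩
      simp only [ciSup_const]
      exact EQ.psum_log_abv hs0
  by_cases hd : d = 0
  · refine triv fun w => ?_
    have h1 : (fun s : τ → κ => (Matrix.of fun i j =>
        eval w (pderiv j (f (s i)))).det * ∏ a ∈ (Finset.univ.image s)ᶜ, eval w (f a)) = 0 := by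
      funext s
      have h2 : (Matrix.of fun i j => eval w (pderiv j (f (s i)))) = 0 := by
        ext i j
        have h3 : (f (s i)).totalDegree = 0 :=
          (totalDegree_zero_iff_isHomogeneous (p := f (s i))).mpr (hd ▸ hf (s i))
        rw [Matrix.of_apply, totalDegree_eq_zero_iff_eq_C.mp h3, pderiv_C, map_zero]
        rfl
      have hne : Nonempty τ := ⟨ρ₀⟩
      rw [h2, Matrix.det_zero, zero_mul]
      rfl
    rw [h1, logHeight_zero]
  by_cases hf0 : ∃ a, f a = 0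
  · obtain ⟨a, ha⟩ := hf0
    refine triv fun w => ?_
    have h1 : (fun s : τ → κ => (Matrix.of fun i j =>
        eval w (pderiv j (f (s i)))).det * ∏ a ∈ (Finset.univ.image s)ᶜ, eval w (f a)) = 0 := by
      funext s
      by_cases h2 : a ∈ Finset.univ.image s
      · obtain ⟨i, -, hi⟩ := Finset.mem_image.1 h2
        rw [Matrix.det_eq_zero_of_row_eq_zero i fun j => by
          rw [Matrix.of_apply, hi, ha, map_zero, map_zero], zero_mul]
        rfl
      · rw [Finset.prod_eq_zero (Finset.mem_compl.2 h2) (by rw [ha, map_zero]), mul_zero]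
        rfl
    rw [h1, logHeight_zero]
  push Not at hf0
  -- the parameters
  set s : ℝ := (Fintype.card κ : ℝ) with hs
  have hs0 : 0 ≤ s := Nat.cast_nonneg _
  have hd0 : (0 : ℝ) ≤ d := Nat.cast_nonneg _
  have hsd : 0 ≤ s * d := mul_nonneg hs0 hd0
  set ε1 : ℝ := ε / 2 / (1 + 10 * (s * d)) with hε1
  have hqe : 0 < 1 + 10 * (s * d) := by positivity
  have hε1p : 0 < ε1 := by positivity
  have hε1e : ε1 * (1 + 10 * (s * d)) = ε / 2 := by rw [hε1]; field_simp
  obtain ⟨m, hm⟩ := exists_nat_gt (max 1 (11 * (s * d) / (ε / 2)))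
  have hm1' : (1 : ℝ) < m := lt_of_le_of_lt (le_max_left _ _) hm
  have hm1 : 1 ≤ m := by
    have : (1 : ℝ) ≤ m := hm1'.le
    exact_mod_cast this
  have hm0 : (0 : ℝ) < m := by linarith
  have hm2 : 11 / m * (s * d) ≤ ε / 2 := by
    have h1 := lt_of_le_of_lt (le_max_right _ _) hm
    rw [div_lt_iff₀ (by positivity)] at h1
    rw [div_mul_eq_mul_div, div_le_iff₀ hm0]
    linarith
  obtain ⟨M, hM⟩ := u_all m (Fintype.card (τ ⊕ Bool))
  have hUA : UA m M (τ ⊕ Bool) := hM (τ ⊕ Bool) le_rfl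
  set M' : ℕ := max 1 ((Fintype.card τ + 1) * M) with hM'
  obtain ⟨G, C0, hG, ⟨N, hGh⟩, hmain⟩ := hJ (τ ⊕ Bool)
    ((κ ⊕ Bool → Fin (2 * M' + 1)) → Bool) (Ph f d ρ₀ M') (dP κ d M')
    (fun A => Ph_hom hf ρ₀ M' A) ε1 hε1p
  obtain ⟨g, hg, hgh, hbox⟩ := box_form hG hGh ρ₀
  obtain ⟨C1, hC1, htu⟩ := choose_tu K (N + 1) m hm1
  obtain ⟨C2, hC2, hval⟩ := height_val (K := K) hf
  refine ⟨X ρ₀ * (g * ∏ a, f a),
    |C0| + (2 * ε1 + 3) * C1 + (10 * ε1 + 11 / m) * (s * C2),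
    mul_ne_zero (X_ne_zero _) (mul_ne_zero hg (Finset.prod_ne_zero_iff.2 fun a _ => hf0 a)),
    ⟨_, (isHomogeneous_X K ρ₀).mul (hgh.mul (IsHomogeneous.prod _ _ _ fun a _ => hf a))⟩,
    fun w hw => ?_⟩
  rw [map_mul, map_mul, map_prod, eval_X] at hw
  have hw₀ : w ρ₀ ≠ 0 := left_ne_zero_of_mul hw
  have hgw : eval w g ≠ 0 := left_ne_zero_of_mul (right_ne_zero_of_mul hw)
  have hfw : ∀ a, eval w (f a) ≠ 0 := fun a =>
    Finset.prod_ne_zero_iff.1 (right_ne_zero_of_mul (right_ne_zero_of_mul hw)) a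
      (Finset.mem_univ a)
  have hw0 : w ≠ 0 := fun h => hw₀ (by rw [h]; rfl)
  have hh0 : 0 ≤ logHeight w := logHeight_nonneg _
  have hentry : (fun s : τ → κ => (Matrix.of fun i j => eval w (pderiv j (f (s i)))).det *
      ∏ a ∈ (Finset.univ.image s)ᶜ, eval w (f a))
      = (∏ a, eval w (f a)) • fun s : τ → κ => (Matrix.of fun l j => dl w (f (s l)) j).det := by
    funext s
    rw [Pi.smul_apply, smul_eq_mul]
    exact entry_dl hfw s
  rw [hentry, logHeight_smul_eq_logHeight _ (Finset.prod_ne_zero_iff.2 fun a _ => hfw a)]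
  have hC : 0 ≤ |C0| + (2 * ε1 + 3) * C1 + (10 * ε1 + 11 / m) * (s * C2) := by positivity
  by_cases hI : ∃ s : τ → κ, (Matrix.of fun l j => dl w (f (s l)) j).det ≠ 0
  swap
  · push Not at hI
    have h1 : (fun s : τ → κ => (Matrix.of fun l j => dl w (f (s l)) j).det) = 0 := funext hI
    rw [h1, logHeight_zero]
    have := hrad0 w
    positivity
  obtain ⟨a0, ha0⟩ : ∃ a, eval w (f a) ≠ 0 := by
    obtain ⟨s0, -⟩ := hI
    exact ⟨s0 ρ₀, hfw _⟩
  -- the radical
  set y : κ → K := fun a => eval w (f a) with hy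
  have hy0 : ∀ a, y a ≠ 0 := hfw
  set T : Finset (FinitePlace K) := (rad_fin hy0).toFinset with hT
  have hrad : (∑ᶠ v ∈ {v : FinitePlace K | ∃ a b, v (eval w (f a)) ≠ v (eval w (f b))},
      Real.log (Ideal.absNorm v.maximalIdeal.asIdeal)) = ∑ v ∈ T, Real.log (qv v) :=
    finsum_mem_eq_finite_toFinset_sum _ (rad_fin hy0)
  rw [hrad]
  set R : ℝ := ∑ v ∈ T, Real.log (qv v) with hR
  have hR0 : 0 ≤ R := Finset.sum_nonneg fun v _ => (Real.log_pos (EQ.one_lt_qv v)).le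
  set Q : ℝ := psum (PP y) with hQ
  have hRQ : R ≤ Q := rad_le hy0
  have hQ1 : Q ≤ s * (d * logHeight w + C2) := by
    rw [hQ, PP_psum hy0]
    exact mul_le_mul_of_nonneg_left (hval w hw0 ⟨a0, ha0⟩) hs0
  have hQ0 : 0 ≤ Q := hR0.trans hRQ
  obtain ⟨t, u, ht, hu, hjj⟩ := htu (PP y) T (PP_nonneg hy0) (PP_fs hy0) (fun v hv => by
    refine PP_out v fun h => hv ?_
    rw [hT, Set.Finite.mem_toFinset]
    exact h)
  obtain ⟨j, j', hj1, hj2, hj1', hj2', hGp⟩ := hbox w hgw hw₀ t u ht hu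
  obtain ⟨b1, b2, b3, b4⟩ := hjj j j' hj1 hj2 hj1' hj2'
  have ht' : (j : K) * t ≠ 0 := mul_ne_zero (by exact_mod_cast (by omega : j ≠ 0)) ht
  have hu' : (j' : K) * u ≠ 0 := mul_ne_zero (by exact_mod_cast (by omega : j' ≠ 0)) hu
  have c1 := hmain _ hGp
  have c2 := height_bd (K := K) hd hf hfw hw₀ ht' hu' hI hm1 (le_max_left _ _) (le_max_right _ _)
    hUA (P := PP y) (fun v a b => PP_le hy0 v a b) b1 b2
  have c3 := height_pt (K := K) hw₀ ((j : K) * t) ((j' : K) * u)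
  have c4 := mul_le_mul_of_nonneg_left c3 hε1p.le
  have c5 : C0 ≤ |C0| := le_abs_self _
  -- the final estimate
  set h1 : ℝ := logHeight₁ ((j : K) * t) with hh1
  set h2 : ℝ := logHeight₁ ((j' : K) * u) with hh2
  have hm3 : 1 / (m : ℝ) ≤ 1 := by rw [div_le_one hm0]; exact hm1'.le
  have hm4 : 0 ≤ 1 / (m : ℝ) := by positivity
  set z : ℝ := 1 / (m : ℝ) with hz
  have e1 : 2 / (m : ℝ) = 2 * z := by rw [hz]; ring
  have e2 : 11 / (m : ℝ) = 11 * z := by rw [hz]; ring
  rw [e1] at b4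
  rw [e2] at hm2 hC ⊢
  have k1 : R + z * Q ≤ 2 * Q := by nlinarith
  have k2 : h2 ≤ 5 * z * Q + C1 := by nlinarith
  have k3 : h1 + h2 ≤ 7 * Q + 2 * C1 := by nlinarith
  have k4 : h1 + 2 * h2 ≤ R + 11 * z * Q + 3 * C1 := by nlinarith
  have k5 : ε1 * (h1 + h2) ≤ ε1 * (7 * Q + 2 * C1) := mul_le_mul_of_nonneg_left k3 hε1p.le
  have k6 : (7 * ε1 + 11 * z) * Q ≤ (7 * ε1 + 11 * z) * (s * (d * logHeight w + C2)) :=
    mul_le_mul_of_nonneg_left hQ1 (by positivity)
  have k7 : (11 * z * (s * d)) * logHeight w ≤ ε / 2 * logHeight w :=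
    mul_le_mul_of_nonneg_right hm2 hh0
  have k8 : (ε1 * (1 + 10 * (s * d))) * logHeight w = ε / 2 * logHeight w := by rw [hε1e]
  have k9 : 0 ≤ ε1 * (s * d) * logHeight w := by positivity
  have k10 : 0 ≤ ε1 * (s * C2) := by positivity
  nlinarith

end Pool.Agent.Lib.MP_17a322_nt.ABD
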