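import Pool.Agent.Lib.MP_17a322_nt.ABD.B1

/-!
Unimodular changes of real numbers with one distinguished index.
-/

set_option autoImplicit false

namespace Pool.Agent.Lib.MP_17a322_nt.ABD

theorem u_all (m n : ℕ) : ∃ M : ℕ, ∀ (Y : Type) [Fintype Y] [DecidableEq Y],
    Fintype.card Y ≤ n → ∀ (ρ θ : Y), ρ ≠ θ → ∀ x : Y → ℝ, 0 ≤ x θ →
    ∃ N : Matrix Y Y ℤ, (N.det = 1 ∨ N.det = -1) ∧ (∀ i j, |N i j| ≤ M) ∧
      (∀ j, N ρ j = if ρ = j then 1 else 0) ∧ (∀ i, N i ρ = if i = ρ then 1 else 0) ∧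
      (∀ i, i ≠ ρ → 0 ≤ ∑ j, (N i j : ℝ) * x j) ∧
      ∑ i ∈ Finset.univ.erase ρ, ∑ j, (N i j : ℝ) * x j ≤
        x θ + ∑ y ∈ (Finset.univ.erase ρ).filter (fun y => ¬ |x y| ≤ m * x θ), |x y| := by
  obtain ⟨M, hM⟩ := u_main m n
  refine ⟨M, fun Y _ _ hcard ρ θ hρθ x hx => ?_⟩
  set ε : Y → ℤ := fun y => if y = ρ then 1 else if 0 ≤ x y then 1 else -1 with hε
  have hε1 : ∀ y, ε y = 1 ∨ ε y = -1 := by
    intro y
    simp only [hε]
    split_ifs <;> simp
  have hερ : ε ρ = 1 := by simp [hε]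
  set x' : Y → ℝ := fun y => ε y * x y with hx'
  have hx'abs : ∀ y, y ≠ ρ → x' y = |x y| := by
    intro y hy
    simp only [hx', hε, if_neg hy]
    split_ifs with h
    · rw [abs_of_nonneg h]; simp
    · rw [abs_of_neg (not_le.1 h)]; simp
  have hx'θ : x' θ = x θ := by
    rw [hx'abs θ hρθ.symm, abs_of_nonneg hx]
  set S : Finset Y := ((Finset.univ.erase ρ).erase θ).filter (fun y => |x y| ≤ m * x θ) with hS
  have hSθ : θ ∉ S := by simp [hS]
  have hSρ : ρ ∉ S := by simp [hS]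
  have hSρ' : ρ ∉ insert θ S := by
    rw [Finset.mem_insert, not_or]
    exact ⟨hρθ, hSρ⟩
  obtain ⟨N₀, hdet, hbd, hrow, hcol, hnn, hsum⟩ := hM Y θ S hSθ
    ((Finset.card_le_univ S).trans hcard) x' (by rw [hx'θ]; exact hx) (fun y hy => by
      have h1 : y ≠ ρ := fun h => hSρ (h ▸ hy)
      rw [hx'abs y h1, hx'θ]
      exact ⟨abs_nonneg _, (Finset.mem_filter.1 hy).2⟩)
  set N : Matrix Y Y ℤ := N₀ * Matrix.diagonal ε with hN
  have hNij : ∀ i j, N i j = N₀ i j * ε j := fun i j => by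
    rw [hN, Matrix.mul_diagonal]
  have hval : ∀ i, ∑ j, (N i j : ℝ) * x j = ∑ j, (N₀ i j : ℝ) * x' j := by
    intro i
    refine Finset.sum_congr rfl fun j _ => ?_
    rw [hNij]
    simp only [hx']
    push_cast
    ring
  have hout : ∀ i, i ∉ insert θ S → i ≠ ρ → ∑ j, (N i j : ℝ) * x j = |x i| := by
    intro i hi hiρ
    rw [hval i]
    have h1 : ∀ j, (N₀ i j : ℝ) * x' j = if i = j then x' j else 0 := by
      intro j
      rw [hrow i hi j]
      split_ifs <;> simp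
    rw [Finset.sum_congr rfl fun j _ => h1 j, Finset.sum_ite_eq, if_pos (Finset.mem_univ i),
      hx'abs i hiρ]
  refine ⟨N, ?_, ?_, ?_, ?_, ?_, ?_⟩
  · have h1 : N.det = ∏ y, ε y := by
      rw [hN, Matrix.det_mul, hdet, one_mul, Matrix.det_diagonal]
    rw [h1]
    refine Finset.prod_induction ε (fun a => a = 1 ∨ a = -1) ?_ (Or.inl rfl) fun y _ => hε1 y
    rintro a b (rfl | rfl) (rfl | rfl) <;> simp
  · intro i j
    rw [hNij, abs_mul]
    have : |ε j| = 1 := by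
      rcases hε1 j with h | h <;> simp [h]
    rw [this, mul_one]
    exact hbd i j
  · intro j
    rw [hNij, hrow ρ hSρ' j]
    split_ifs with h
    · rw [← h, hερ, one_mul]
    · rw [zero_mul]
  · intro i
    rw [hNij, hcol ρ hSρ' i, hερ, mul_one]
  · intro i hi
    by_cases h : i ∈ insert θ S
    · rw [hval i]; exact hnn i h
    · rw [hout i h hi]; exact abs_nonneg _
  · have hsub : insert θ S ⊆ Finset.univ.erase ρ := by
      intro i hi
      exact Finset.mem_erase.2 ⟨fun h => hSρ' (h ▸ hi), Finset.mem_univ _⟩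
    rw [← Finset.sum_sdiff hsub]
    have h1 : ∑ i ∈ insert θ S, ∑ j, (N i j : ℝ) * x j = x θ := by
      rw [Finset.sum_congr rfl fun i _ => hval i, hsum, hx'θ]
    rw [h1, add_comm]
    refine add_le_add_right ?_ _
    have h2 : ∑ i ∈ Finset.univ.erase ρ \ insert θ S, ∑ j, (N i j : ℝ) * x j
        = ∑ i ∈ Finset.univ.erase ρ \ insert θ S, |x i| := by
      refine Finset.sum_congr rfl fun i hi => ?_
      obtain ⟨hi1, hi2⟩ := Finset.mem_sdiff.1 hi
      exact hout i hi2 (Finset.mem_erase.1 hi1).1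
    rw [h2]
    refine Finset.sum_le_sum_of_subset_of_nonneg (fun i hi => ?_) fun i _ _ => abs_nonneg _
    obtain ⟨hi1, hi2⟩ := Finset.mem_sdiff.1 hi
    refine Finset.mem_filter.2 ⟨hi1, fun h => hi2 ?_⟩
    rw [Finset.mem_insert, or_iff_not_imp_left]
    intro hiθ
    exact Finset.mem_filter.2 ⟨Finset.mem_erase.2 ⟨hiθ, hi1⟩, h⟩

end Pool.Agent.Lib.MP_17a322_nt.ABD
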