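import Mathlib

/-!
Determinants.
-/

set_option autoImplicit false
set_option linter.unusedSectionVars false

namespace Pool.Agent.Lib.MP_17a322_nt.ABD

open Matrix

variable {σ τ K : Type*} [Fintype σ] [DecidableEq σ] [Fintype τ] [DecidableEq τ] [Field K]

/-- The matrix with the row `u` at `ρ` and the rows `D x` elsewhere. -/
def mrow (ρ : σ) (u : σ → K) (D : σ → σ → K) : Matrix σ σ K :=
  Matrix.of fun x => if x = ρ then u else D x

theorem mrow_self (ρ : σ) (u : σ → K) (D : σ → σ → K) : mrow ρ u D ρ = u :=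
  if_pos rfl

theorem mrow_ne {ρ x : σ} (h : x ≠ ρ) (u : σ → K) (D : σ → σ → K) : mrow ρ u D x = D x :=
  if_neg h

theorem m_det1 (ρ : σ) (u : σ → K) (D : σ → σ → K) :
    (mrow ρ u fun x => u + D x).det = (mrow ρ u D).det := by
  refine Matrix.det_eq_of_forall_row_eq_smul_add_const (fun x => if x = ρ then 0 else 1) ρ
    (if_pos rfl) fun i j => ?_
  by_cases h : i = ρ
  · rw [h, mrow_self, mrow_self, if_pos rfl, zero_mul, add_zero]
  · rw [mrow_ne h, mrow_ne h, mrow_self, if_neg h, one_mul, Pi.add_apply, add_comm]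

/-- The rows are multiplied by numbers. -/
theorem m_det0 (c : σ → K) (A : Matrix σ σ K) :
    (Matrix.of fun x y => c x * A x y).det = (∏ x, c x) * A.det := by
  have : (Matrix.of fun x y => c x * A x y) = Matrix.diagonal c * A := by
    ext x y
    rw [Matrix.diagonal_mul]
    rfl
  rw [this, Matrix.det_mul, Matrix.det_diagonal]

theorem m_det2 (ρ : σ) (u r : σ → K) (D : σ → σ → K) (p : σ → K) (hp : p ≠ 0)
    (hD : ∀ x, x ≠ ρ → D x ⬝ᵥ p = 0) {δ d : K} (hu : u ⬝ᵥ p = δ) (hr : r ⬝ᵥ p = d) :
    d * (mrow ρ u D).det = δ * (mrow ρ r D).det := by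
  have h1 : (mrow ρ (d • u + (-δ) • r) D).det = 0 := by
    refine Matrix.exists_mulVec_eq_zero_iff.1 ⟨p, hp, ?_⟩
    funext x
    by_cases h : x = ρ
    · rw [Matrix.mulVec, h, mrow_self, add_dotProduct, smul_dotProduct, smul_dotProduct, hu, hr]
      simp only [smul_eq_mul, Pi.zero_apply]
      ring
    · rw [Matrix.mulVec, mrow_ne h, hD x h]
      rfl
  have h2 : ∀ v : σ → K, mrow ρ v D = (mrow ρ 0 D).updateRow ρ v := by
    intro v
    funext x
    by_cases h : x = ρ
    · rw [h, mrow_self, Matrix.updateRow_self]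
    · rw [mrow_ne h, Matrix.updateRow_ne h, mrow_ne h]
  rw [h2, Matrix.det_updateRow_add, Matrix.det_updateRow_smul, Matrix.det_updateRow_smul,
    ← h2, ← h2] at h1
  linear_combination h1

theorem m_det3 (ρ : σ) (N : Matrix σ σ K) (hN : ∀ j, N ρ j = if ρ = j then 1 else 0)
    (R : Matrix σ σ K) (D : σ → σ → K) (hD : ∀ x, x ≠ ρ → D x = ∑ y, N x y • R y) :
    (mrow ρ (R ρ) D).det = N.det * R.det := by
  rw [← Matrix.det_mul]
  congr 1
  funext x
  by_cases h : x = ρ
  · rw [h, mrow_self]
    funext j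
    rw [Matrix.mul_apply]
    simp [hN]
  · rw [mrow_ne h, hD x h]
    funext j
    rw [Matrix.mul_apply, Finset.sum_apply]
    rfl

/-- The logarithmic differentials of the `a l / a ρ`, of `T / b` and of `U / b`. -/
def Rm (ρ : τ) (a : τ → τ → K) (b : τ → K) (t u : K) : Matrix (τ ⊕ Bool) (τ ⊕ Bool) K :=
  Matrix.of fun x => match x with
    | Sum.inl l => Sum.elim (if l = ρ then a ρ else a l - a ρ) 0
    | Sum.inr true => Sum.elim (-b) (fun j => if j then t else 0)
    | Sum.inr false => Sum.elim (-b) (fun j => if j then 0 else u)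

theorem m_det4 (ρ : τ) (a : τ → τ → K) (b : τ → K) (t u : K) :
    (Rm ρ a b t u).det = (Matrix.of a).det * (t * u) := by
  have h1 : (Rm ρ a b t u).det = (Matrix.fromBlocks (Matrix.of a) 0
      (Matrix.of fun (_ : Bool) => -b)
      (Matrix.diagonal fun j : Bool => if j then t else u)).det := by
    symm
    refine Matrix.det_eq_of_forall_row_eq_smul_add_const
      (fun x => Sum.elim (fun l => if l = ρ then 0 else 1) 0 x) (Sum.inl ρ) (by simp)
      fun x y => ?_
    rcases x with l | j <;> rcases y with l' | j'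
    · by_cases h : l = ρ
      · subst h; simp [Rm]
      · simp [Rm, h]
    · by_cases h : l = ρ
      · subst h; simp [Rm]
      · simp [Rm, h]
    · cases j <;> simp [Rm]
    · cases j <;> cases j' <;> simp [Rm]
  rw [h1, Matrix.det_fromBlocks_zero₁₂, Matrix.det_diagonal]
  simp

end Pool.Agent.Lib.MP_17a322_nt.ABD
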