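import Pool.Agent.Lib.MP_17a322_nt.ABD.B3

/-!
Logarithmic differentials, and the products of numerators and denominators of monomials in forms.
-/

set_option autoImplicit false

universe u

namespace Pool.Agent.Lib.MP_17a322_nt.ABD

open MvPolynomial Matrix

section

variable {K σ : Type*} [Field K]

/-- The product of the forms `u e` for `A e = true` and `v e` for `A e = false`. -/
noncomputable def phiS {E τ : Type*} [Fintype E] (u v : E → MvPolynomial τ K) (A : E → Bool) :
    MvPolynomial τ K := ∏ e, if A e then u e else v e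

/-- The vector of the partial derivatives divided by the value. -/
noncomputable def dl (p : σ → K) (F : MvPolynomial σ K) : σ → K :=
  fun j => eval p (pderiv j F) / eval p F

theorem dl_mul {p : σ → K} {F G : MvPolynomial σ K} (hF : eval p F ≠ 0) (hG : eval p G ≠ 0) :
    dl p (F * G) = dl p F + dl p G := by
  funext j
  simp only [dl, Pi.add_apply, Derivation.leibniz, map_add, map_mul, smul_eq_mul]
  field_simp
  ring

theorem dl_one (p : σ → K) : dl p (1 : MvPolynomial σ K) = 0 := by
  funext j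
  simp [dl]

theorem dl_pow {p : σ → K} {F : MvPolynomial σ K} (hF : eval p F ≠ 0) (n : ℕ) :
    dl p (F ^ n) = (n : K) • dl p F := by
  induction n with
  | zero => rw [pow_zero, dl_one, Nat.cast_zero, zero_smul]
  | succ n ih =>
    have h : eval p (F ^ n) ≠ 0 := by rw [map_pow]; exact pow_ne_zero _ hF
    rw [pow_succ, dl_mul h hF, ih, Nat.cast_succ, add_smul, one_smul]

theorem dl_prod {p : σ → K} {α : Type*} (s : Finset α) (F : α → MvPolynomial σ K)
    (hF : ∀ a ∈ s, eval p (F a) ≠ 0) : dl p (∏ a ∈ s, F a) = ∑ a ∈ s, dl p (F a) := by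
  classical
  induction s using Finset.induction_on with
  | empty => rw [Finset.prod_empty, Finset.sum_empty, dl_one]
  | insert a s ha ih =>
    have h : eval p (∏ a ∈ s, F a) ≠ 0 := by
      rw [map_prod]
      exact Finset.prod_ne_zero_iff.2 fun b hb => hF b (Finset.mem_insert_of_mem hb)
    rw [Finset.prod_insert ha, Finset.sum_insert ha,
      dl_mul (hF a (Finset.mem_insert_self _ _)) h, ih fun b hb => hF b (Finset.mem_insert_of_mem hb)]

theorem dl_euler [Fintype σ] {p : σ → K} {F : MvPolynomial σ K} {d : ℕ} (hF : F.IsHomogeneous d)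
    (h : eval p F ≠ 0) : dl p F ⬝ᵥ p = d := by
  have h1 := congrArg (eval p) hF.sum_X_mul_pderiv
  rw [map_sum, nsmul_eq_mul, map_mul, map_natCast] at h1
  have h2 : dl p F ⬝ᵥ p = (∑ i, eval p (X i * pderiv i F)) / eval p F := by
    rw [dotProduct, Finset.sum_div]
    refine Finset.sum_congr rfl fun i _ => ?_
    simp only [dl, map_mul, eval_X]
    ring
  rw [h2, h1]
  field_simp

theorem dl_row {p : σ → K} {F : MvPolynomial σ K} (h : eval p F ≠ 0) (j : σ) :
    eval p (pderiv j F) = eval p F * dl p F j := by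
  rw [dl]
  field_simp

end

section

variable {K σ Λ : Type*} [Field K] [Fintype Λ]

/-- The numerator of the monomial with the exponents `a` in the forms `F c` divided by the powers of
`P`. -/
noncomputable def nm (F : Λ → MvPolynomial σ K) (dg : Λ → ℕ) (P : MvPolynomial σ K) (a : Λ → ℤ) :
    MvPolynomial σ K :=
  (∏ c, F c ^ (a c).toNat) * P ^ (∑ c, dg c * (-a c).toNat)

theorem nm_hom {F : Λ → MvPolynomial σ K} {dg : Λ → ℕ} (hF : ∀ c, (F c).IsHomogeneous (dg c))
    {P : MvPolynomial σ K} (hP : P.IsHomogeneous 1) (a : Λ → ℤ) :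
    (nm F dg P a).IsHomogeneous (∑ c, dg c * (a c).natAbs) := by
  have h1 : (∏ c, F c ^ (a c).toNat).IsHomogeneous (∑ c, dg c * (a c).toNat) :=
    IsHomogeneous.prod _ _ _ fun c _ => (hF c).pow _
  have h2 := h1.mul (hP.pow (∑ c, dg c * (-a c).toNat))
  have h3 : (∑ c, dg c * (a c).toNat) + 1 * ∑ c, dg c * (-a c).toNat
      = ∑ c, dg c * (a c).natAbs := by
    rw [one_mul, ← Finset.sum_add_distrib]
    refine Finset.sum_congr rfl fun c _ => ?_
    rw [← Nat.mul_add]
    congr 1
    omega
  rw [← h3]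
  exact h2

theorem nm_ne {F : Λ → MvPolynomial σ K} (dg : Λ → ℕ) {P : MvPolynomial σ K} {p : σ → K}
    (hF : ∀ c, eval p (F c) ≠ 0) (hP : eval p P ≠ 0) (a : Λ → ℤ) : eval p (nm F dg P a) ≠ 0 := by
  rw [nm, map_mul, map_prod, map_pow]
  refine mul_ne_zero (Finset.prod_ne_zero_iff.2 fun c _ => ?_) (pow_ne_zero _ hP)
  rw [map_pow]
  exact pow_ne_zero _ (hF c)

theorem nm_quot {F : Λ → MvPolynomial σ K} (dg : Λ → ℕ) {P : MvPolynomial σ K} {p : σ → K}
    (hF : ∀ c, eval p (F c) ≠ 0) (hP : eval p P ≠ 0) (a : Λ → ℤ) :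
    eval p (nm F dg P a) / eval p (nm F dg P (-a))
      = ∏ c, (eval p (F c) / eval p P ^ dg c) ^ a c := by
  have h1 : ∀ c, (eval p (F c) / eval p P ^ dg c) ^ a c
      = (eval p (F c) ^ (a c).toNat * (eval p P ^ dg c) ^ (-a c).toNat)
        / (eval p (F c) ^ (-a c).toNat * (eval p P ^ dg c) ^ (a c).toNat) := by
    intro c
    have hFc := hF c
    have hPc := pow_ne_zero (dg c) hP
    have h2 : a c = ((a c).toNat : ℤ) - ((-a c).toNat : ℤ) := by omega
    rw [h2, zpow_sub₀ (div_ne_zero hFc hPc), ← h2, zpow_natCast, zpow_natCast, div_pow, div_pow]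
    field_simp
  rw [Finset.prod_congr rfl fun c _ => h1 c, Finset.prod_div_distrib, Finset.prod_mul_distrib,
    Finset.prod_mul_distrib]
  simp only [nm, map_mul, map_prod, map_pow, Pi.neg_apply, neg_neg]
  simp only [← pow_mul, Finset.prod_pow_eq_pow_sum]

theorem nm_dl {F : Λ → MvPolynomial σ K} (dg : Λ → ℕ) {P : MvPolynomial σ K} {p : σ → K}
    (hF : ∀ c, eval p (F c) ≠ 0) (hP : eval p P ≠ 0) (a : Λ → ℤ) :
    dl p (nm F dg P a) - dl p (nm F dg P (-a))
      = ∑ c, (a c : K) • (dl p (F c) - (dg c : K) • dl p P) := by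
  have h1 : ∀ b : Λ → ℤ, dl p (nm F dg P b) = (∑ c, ((b c).toNat : K) • dl p (F c))
      + ∑ c, ((dg c : K) * ((-b c).toNat : K)) • dl p P := by
    intro b
    have hprod : ∀ c ∈ Finset.univ, eval p (F c ^ (b c).toNat) ≠ 0 := fun c _ => by
      rw [map_pow]; exact pow_ne_zero _ (hF c)
    rw [nm, dl_mul (by rw [map_prod]; exact Finset.prod_ne_zero_iff.2 hprod)
      (by rw [map_pow]; exact pow_ne_zero _ hP), dl_prod _ _ hprod, dl_pow hP]
    congr 1
    · exact Finset.sum_congr rfl fun c _ => dl_pow (hF c) _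
    · rw [← Finset.sum_smul]
      push_cast
      rfl
  rw [h1, h1, ← sub_eq_zero]
  have h2 : ∀ c, (a c : K) = ((a c).toNat : K) - ((-a c).toNat : K) := by
    intro c
    have h3 : a c = ((a c).toNat : ℤ) - ((-a c).toNat : ℤ) := by omega
    have h4 := congrArg (fun z : ℤ => (z : K)) h3
    push_cast at h4
    exact h4
  have h3 : (∑ c, (a c : K) • (dl p (F c) - (dg c : K) • dl p P))
      = (∑ c, ((a c).toNat : K) • dl p (F c)) - (∑ c, ((-a c).toNat : K) • dl p (F c))
        + ((∑ c, ((dg c : K) * ((-a c).toNat : K)) • dl p P)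
          - ∑ c, ((dg c : K) * ((a c).toNat : K)) • dl p P) := by
    rw [← Finset.sum_sub_distrib, ← Finset.sum_sub_distrib, ← Finset.sum_add_distrib]
    refine Finset.sum_congr rfl fun c _ => ?_
    rw [h2 c]
    module
  rw [h3]
  simp only [Pi.neg_apply, neg_neg]
  abel

end

end Pool.Agent.Lib.MP_17a322_nt.ABD
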