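import Pool.Agent.Lib.MP_17a322_nt.ABD.B4

/-!
The minor of the Jacobian matrix of the products of numerators and denominators of monomials.
-/

set_option autoImplicit false
set_option linter.unusedSectionVars false

universe u

namespace Pool.Agent.Lib.MP_17a322_nt.ABD

open MvPolynomial Matrix

section

variable {K σ E : Type*} [Field K] [Fintype E] [DecidableEq E] {p : σ → K}
  {u v : E → MvPolynomial σ K}

theorem ph_ne (hu : ∀ e, eval p (u e) ≠ 0) (hv : ∀ e, eval p (v e) ≠ 0) (A : E → Bool) :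
    eval p (phiS u v A) ≠ 0 := by
  rw [phiS, map_prod]
  refine Finset.prod_ne_zero_iff.2 fun e _ => ?_
  split_ifs
  · exact hu e
  · exact hv e

theorem ph_split (A : E → Bool) (e : E) :
    phiS u v A = (if A e then u e else v e) * ∏ g ∈ Finset.univ.erase e, if A g then u g else v g := by
  exact (Finset.mul_prod_erase Finset.univ (fun g => if A g then u g else v g)
    (Finset.mem_univ e)).symm

theorem ph_rest (A : E → Bool) (e : E) (b : Bool) :
    (∏ g ∈ Finset.univ.erase e, if Function.update A e b g then u g else v g)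
      = ∏ g ∈ Finset.univ.erase e, if A g then u g else v g := by
  refine Finset.prod_congr rfl fun g hg => ?_
  rw [Function.update_of_ne (Finset.mem_erase.1 hg).1]

theorem ph_rest_ne (hu : ∀ e, eval p (u e) ≠ 0) (hv : ∀ e, eval p (v e) ≠ 0) (A : E → Bool)
    (e : E) : eval p (∏ g ∈ Finset.univ.erase e, if A g then u g else v g) ≠ 0 := by
  rw [map_prod]
  refine Finset.prod_ne_zero_iff.2 fun g _ => ?_
  split_ifs
  · exact hu g
  · exact hv g

theorem ph_eval (hv : ∀ e, eval p (v e) ≠ 0) {A : E → Bool} {e : E} (he : A e = false) :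
    eval p (phiS u v (Function.update A e true))
      = eval p (phiS u v A) * (eval p (u e) / eval p (v e)) := by
  have hve := hv e
  rw [ph_split (Function.update A e true) e, ph_split A e, ph_rest, Function.update_self,
    if_pos rfl, he, if_neg (by simp), map_mul, map_mul]
  field_simp

theorem ph_dl (hu : ∀ e, eval p (u e) ≠ 0) (hv : ∀ e, eval p (v e) ≠ 0) {A : E → Bool} {e : E}
    (he : A e = false) :
    dl p (phiS u v (Function.update A e true))
      = dl p (phiS u v A) + (dl p (u e) - dl p (v e)) := by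
  rw [ph_split (Function.update A e true) e, ph_split A e, ph_rest, Function.update_self,
    if_pos rfl, he, if_neg (by simp), dl_mul (hu e) (ph_rest_ne hu hv A e),
    dl_mul (hv e) (ph_rest_ne hu hv A e)]
  abel

theorem ph_hom {dg : E → ℕ} (hu : ∀ e, (u e).IsHomogeneous (dg e))
    (hv : ∀ e, (v e).IsHomogeneous (dg e)) (A : E → Bool) :
    (phiS u v A).IsHomogeneous (∑ e, dg e) := by
  refine IsHomogeneous.prod _ _ _ fun e _ => ?_
  split_ifs
  · exact hu e
  · exact hv e

/-- The selection of the rows. -/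
def rsel [DecidableEq σ] (ρ : σ) (A : E → Bool) (e : σ → E) : σ → E → Bool := fun x =>
  if x = ρ then A else Function.update A (e x) true

theorem minor_eq1 [Fintype σ] [DecidableEq σ] (hu : ∀ e, eval p (u e) ≠ 0)
    (hv : ∀ e, eval p (v e) ≠ 0) (ρ : σ) (A : E → Bool) (e : σ → E)
    (hA : ∀ x, x ≠ ρ → A (e x) = false) :
    (Matrix.of fun x j => eval p (pderiv j (phiS u v (rsel ρ A e x)))).det
      = eval p (phiS u v A) ^ Fintype.card σ
        * (∏ x ∈ Finset.univ.erase ρ, eval p (u (e x)) / eval p (v (e x)))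
        * (mrow ρ (dl p (phiS u v A)) fun x => dl p (u (e x)) - dl p (v (e x))).det := by
  set c : σ → K := fun x => eval p (phiS u v (rsel ρ A e x)) with hc
  have h1 : (Matrix.of fun x j => eval p (pderiv j (phiS u v (rsel ρ A e x))))
      = Matrix.of fun x j => c x * (mrow ρ (dl p (phiS u v A)) fun x =>
          dl p (phiS u v A) + (dl p (u (e x)) - dl p (v (e x)))) x j := by
    ext x j
    simp only [Matrix.of_apply, hc]
    rw [dl_row (ph_ne hu hv _) j]
    congr 1
    by_cases h : x = ρ
    · rw [h, mrow_self]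
      simp [rsel]
    · rw [mrow_ne h, ← ph_dl hu hv (hA x h)]
      simp [rsel, h]
  rw [h1, m_det0, m_det1]
  congr 1
  have h2 : ∀ x, c x = eval p (phiS u v A)
      * (if x = ρ then 1 else eval p (u (e x)) / eval p (v (e x))) := by
    intro x
    by_cases h : x = ρ
    · simp [hc, rsel, h]
    · simp only [hc, rsel, if_neg h]
      exact ph_eval hv (hA x h)
  rw [Finset.prod_congr rfl fun x _ => h2 x, Finset.prod_mul_distrib, Finset.prod_const,
    Finset.card_univ]
  congr 1
  rw [← Finset.mul_prod_erase _ _ (Finset.mem_univ ρ), if_pos rfl, one_mul]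
  exact Finset.prod_congr rfl fun x hx => if_neg (Finset.mem_erase.1 hx).1

end

section

variable {K σ Λ E : Type*} [Field K] [Fintype σ] [DecidableEq σ] [Fintype Λ] [Fintype E]
  [DecidableEq E]

/-- The degree of the products. -/
def dgE (dg : Λ → ℕ) (ex : E → Λ → ℤ) : ℕ := ∑ e, ∑ c, dg c * (ex e c).natAbs

theorem minor_eq {F : Λ → MvPolynomial σ K} {dg : Λ → ℕ} (hF : ∀ c, (F c).IsHomogeneous (dg c))
    {P : MvPolynomial σ K} (hP : P.IsHomogeneous 1) {p : σ → K} (hFp : ∀ c, eval p (F c) ≠ 0)
    (hPp : eval p P ≠ 0) (ex : E → Λ → ℤ) (ρ : σ) (A : E → Bool) (e : σ → E)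
    (hA : ∀ x, x ≠ ρ → A (e x) = false) {f₀ : MvPolynomial σ K} {d : ℕ}
    (hf₀ : f₀.IsHomogeneous d) (hf₀p : eval p f₀ ≠ 0) :
    (d : K) * (Matrix.of fun x j => eval p (pderiv j (phiS (fun e => nm F dg P (ex e))
        (fun e => nm F dg P (-ex e)) (rsel ρ A e x)))).det
      = (dgE dg ex : K) * (eval p (phiS (fun e => nm F dg P (ex e))
          (fun e => nm F dg P (-ex e)) A) ^ Fintype.card σ
        * (∏ x ∈ Finset.univ.erase ρ, ∏ c, (eval p (F c) / eval p P ^ dg c) ^ ex (e x) c)
        * (mrow ρ (dl p f₀) fun x =>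
            ∑ c, (ex (e x) c : K) • (dl p (F c) - (dg c : K) • dl p P)).det) := by
  have hp : p ≠ 0 := by
    rintro rfl
    have h1 := dl_euler hP hPp
    rw [dotProduct_zero] at h1
    simp at h1
  have hu : ∀ e, eval p (nm F dg P (ex e)) ≠ 0 := fun e => nm_ne dg hFp hPp _
  have hv : ∀ e, eval p (nm F dg P (-ex e)) ≠ 0 := fun e => nm_ne dg hFp hPp _
  have hvh : ∀ e, (nm F dg P (-ex e)).IsHomogeneous (∑ c, dg c * (ex e c).natAbs) := fun e => by
    have := nm_hom hF hP (-ex e)
    simpa using this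
  rw [minor_eq1 hu hv ρ A e hA]
  have h1 : (fun x => dl p (nm F dg P (ex (e x))) - dl p (nm F dg P (-ex (e x))))
      = fun x => ∑ c, (ex (e x) c : K) • (dl p (F c) - (dg c : K) • dl p P) :=
    funext fun x => nm_dl dg hFp hPp _
  have h2 : ∀ x, eval p (nm F dg P (ex (e x))) / eval p (nm F dg P (-ex (e x)))
      = ∏ c, (eval p (F c) / eval p P ^ dg c) ^ ex (e x) c := fun x => nm_quot dg hFp hPp _
  rw [h1]
  have h3 := m_det2 ρ (dl p (phiS (fun e => nm F dg P (ex e)) (fun e => nm F dg P (-ex e)) A))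
    (dl p f₀) (fun x => ∑ c, (ex (e x) c : K) • (dl p (F c) - (dg c : K) • dl p P)) p hp
    (fun x _ => by
      rw [sum_dotProduct]
      refine Finset.sum_eq_zero fun c _ => ?_
      rw [smul_dotProduct, sub_dotProduct, smul_dotProduct, dl_euler (hF c) (hFp c),
        dl_euler hP hPp]
      simp)
    (dl_euler (ph_hom (fun e => nm_hom hF hP (ex e)) hvh A) (ph_ne hu hv A))
    (dl_euler hf₀ hf₀p)
  have h4 : (((∑ e, ∑ c, dg c * (ex e c).natAbs : ℕ)) : K) = (dgE dg ex : K) := rfl
  rw [h4] at h3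
  simp only [h2]
  linear_combination (eval p (phiS (fun e => nm F dg P (ex e))
          (fun e => nm F dg P (-ex e)) A) ^ Fintype.card σ
        * (∏ x ∈ Finset.univ.erase ρ, ∏ c, (eval p (F c) / eval p P ^ dg c) ^ ex (e x) c)) * h3

end

end Pool.Agent.Lib.MP_17a322_nt.ABD
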