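import Pool.Agent.Lib.MP_17a322_nt.ABD.B5

/-!
The lower bound for the minors at one place.
-/

set_option autoImplicit false
set_option linter.unusedSectionVars false

universe u

namespace Pool.Agent.Lib.MP_17a322_nt.ABD

open MvPolynomial Matrix

section

variable {K τ κ : Type*} [Field K] [Fintype τ] [DecidableEq τ] [Fintype κ] [DecidableEq κ]

/-- The forms in the variables `w`, `T`, `U`. -/
noncomputable def FF (f : κ → MvPolynomial τ K) : κ ⊕ Bool → MvPolynomial (τ ⊕ Bool) K :=
  Sum.elim (fun a => rename Sum.inl (f a)) fun b => X (Sum.inr b)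

/-- Their degrees. -/
def DG (κ : Type*) (d : ℕ) : κ ⊕ Bool → ℕ := Sum.elim (fun _ => d) fun _ => 1

/-- The exponents. -/
def EX (κ : Type*) (M : ℕ) (e : κ ⊕ Bool → Fin (2 * M + 1)) : κ ⊕ Bool → ℤ := fun c => (e c : ℤ) - M

/-- The point. -/
def pt (w : τ → K) (T U : K) : τ ⊕ Bool → K := Sum.elim w fun b => if b then T else U

theorem FF_hom {f : κ → MvPolynomial τ K} {d : ℕ} (hf : ∀ a, (f a).IsHomogeneous d)
    (c : κ ⊕ Bool) : (FF f c).IsHomogeneous (DG κ d c) := by
  rcases c with a | b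
  · exact (hf a).rename_isHomogeneous
  · exact isHomogeneous_X _ _

theorem eval_ren (w : τ → K) (T U : K) (g : MvPolynomial τ K) :
    eval (pt w T U) (rename Sum.inl g) = eval w g := by
  rw [eval_rename]
  rfl

theorem dl_ren (w : τ → K) (T U : K) (g : MvPolynomial τ K) :
    dl (pt w T U) (rename Sum.inl g) = Sum.elim (dl w g) 0 := by
  funext j
  rcases j with j | b
  · simp only [dl, Sum.elim_inl]
    rw [eval_ren, pderiv_rename Sum.inl_injective, eval_ren]
  · simp only [dl, Sum.elim_inr, Pi.zero_apply]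
    have : pderiv (Sum.inr b) (rename Sum.inl g : MvPolynomial (τ ⊕ Bool) K) = 0 := by
      refine pderiv_eq_zero_of_notMem_vars fun h => ?_
      have h1 := vars_rename (Sum.inl : τ → τ ⊕ Bool) g h
      rw [Finset.mem_image] at h1
      obtain ⟨a, -, ha⟩ := h1
      exact Sum.inl_ne_inr ha
    rw [this, map_zero, zero_div]

theorem dl_X (w : τ → K) (T U : K) (b : Bool) :
    dl (pt w T U) (X (Sum.inr b))
      = Sum.elim (0 : τ → K) fun j => if j = b then (if b then T else U)⁻¹ else 0 := by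
  funext j
  rcases j with j | j
  · simp [dl, pderiv_X]
  · by_cases h : j = b
    · subst h
      simp [dl, pt]
    · simp [dl, pderiv_X, h]

/-- The exponents of the new monomials. -/
def ax (I : τ → κ) (ρ : τ) (N : Matrix (τ ⊕ Bool) (τ ⊕ Bool) ℤ) (x : τ ⊕ Bool) : κ ⊕ Bool → ℤ :=
  Sum.elim (fun k => ∑ l, N x (Sum.inl l) * ((if I l = k then 1 else 0) - (if I ρ = k then 1 else 0)))
    fun b => N x (Sum.inr b)

theorem ax_bd (I : τ → κ) (ρ : τ) (N : Matrix (τ ⊕ Bool) (τ ⊕ Bool) ℤ) {M : ℕ}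
    (hN : ∀ i j, |N i j| ≤ M) (x : τ ⊕ Bool) (c : κ ⊕ Bool) :
    |ax I ρ N x c| ≤ ((Fintype.card τ + 1) * M : ℕ) := by
  have hM : (0 : ℤ) ≤ M := Nat.cast_nonneg _
  rcases c with k | b
  · simp only [ax, Sum.elim_inl]
    refine (Finset.abs_sum_le_sum_abs _ _).trans ?_
    calc _ ≤ ∑ _l : τ, (M : ℤ) := by
          refine Finset.sum_le_sum fun l _ => ?_
          rw [abs_mul]
          have h1 : |(if I l = k then (1 : ℤ) else 0) - (if I ρ = k then 1 else 0)| ≤ 1 := by
            split_ifs <;> simp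
          calc |N x (Sum.inl l)| * |(if I l = k then (1 : ℤ) else 0) - (if I ρ = k then 1 else 0)|
              ≤ M * 1 := mul_le_mul (hN _ _) h1 (abs_nonneg _) hM
            _ = M := mul_one _
      _ = Fintype.card τ * M := by rw [Finset.sum_const, Finset.card_univ, nsmul_eq_mul]
      _ ≤ _ := by push_cast; nlinarith
  · simp only [ax, Sum.elim_inr]
    refine (hN _ _).trans ?_
    push_cast
    nlinarith [Nat.cast_nonneg (α := ℤ) (Fintype.card τ)]

/-- A linear functional of the exponents. -/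
theorem ax_sum {V : Type*} [AddCommGroup V] [Module K V] (I : τ → κ) (ρ : τ)
    (N : Matrix (τ ⊕ Bool) (τ ⊕ Bool) ℤ) (x : τ ⊕ Bool) (y : κ ⊕ Bool → V) :
    ∑ c, (ax I ρ N x c : K) • y c = ∑ z, (N x z : K) •
      Sum.elim (fun l => y (Sum.inl (I l)) - y (Sum.inl (I ρ))) (fun b => y (Sum.inr b)) z := by
  rw [Fintype.sum_sum_type, Fintype.sum_sum_type]
  congr 1
  simp only [ax, Sum.elim_inl]
  have h1 : ∀ k, ((∑ l, N x (Sum.inl l) * ((if I l = k then 1 else 0) -
      (if I ρ = k then 1 else 0)) : ℤ) : K) • y (Sum.inl k)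
      = ∑ l, (N x (Sum.inl l) : K) • ((if I l = k then y (Sum.inl k) else 0)
        - (if I ρ = k then y (Sum.inl k) else 0)) := by
    intro k
    push_cast
    rw [Finset.sum_smul]
    refine Finset.sum_congr rfl fun l _ => ?_
    split_ifs <;> simp
  rw [Finset.sum_congr rfl fun k _ => h1 k, Finset.sum_comm]
  refine Finset.sum_congr rfl fun l _ => ?_
  rw [← Finset.smul_sum, Finset.sum_sub_distrib, Finset.sum_ite_eq, Finset.sum_ite_eq,
    if_pos (Finset.mem_univ _), if_pos (Finset.mem_univ _)]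

end

end Pool.Agent.Lib.MP_17a322_nt.ABD
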