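import Pool.Agent.Lib.MP_17a322_nt.ABD.B6

/-!
The lower bound for the minors at one place.
-/

set_option autoImplicit false
set_option linter.unusedSectionVars false

universe u

namespace Pool.Agent.Lib.MP_17a322_nt.ABD

open MvPolynomial Matrix

section

variable {K τ κ : Type*} [Field K] [Fintype τ] [DecidableEq τ] [Fintype κ] [DecidableEq κ]

/-- The determinant of the logarithmic differentials of the new monomials. -/
theorem det_new (f : κ → MvPolynomial τ K) (d : ℕ) (w : τ → K) (T U : K) (ρ₀ : τ)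
    (I : τ → κ) (ρ : τ) (N : Matrix (τ ⊕ Bool) (τ ⊕ Bool) ℤ)
    (hN : ∀ j, N (Sum.inl ρ) j = if Sum.inl ρ = j then 1 else 0)
    (hN' : ∀ i, N i (Sum.inl ρ) = if i = Sum.inl ρ then 1 else 0) :
    (mrow (Sum.inl ρ) (dl (pt w T U) (rename Sum.inl (f (I ρ)))) fun x =>
      ∑ c, (ax I ρ N x c : K) • (dl (pt w T U) (FF f c)
        - (DG κ d c : K) • dl (pt w T U) (X (Sum.inl ρ₀)))).det
      = (N.det : K) * ((Matrix.of fun l j => dl w (f (I l)) j).det * (T⁻¹ * U⁻¹)) := by
  set R := Rm ρ (fun l => dl w (f (I l))) (dl w (X ρ₀ : MvPolynomial τ K)) T⁻¹ U⁻¹ with hR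
  have hX : dl (pt w T U) (X (Sum.inl ρ₀)) = Sum.elim (dl w (X ρ₀ : MvPolynomial τ K)) 0 := by
    rw [← dl_ren w T U, rename_X]
  have hRρ : R (Sum.inl ρ) = dl (pt w T U) (rename Sum.inl (f (I ρ))) := by
    rw [dl_ren]
    funext j
    simp only [hR, Rm, Matrix.of_apply, if_true]
  have hRl : ∀ l, l ≠ ρ → R (Sum.inl l) = Sum.elim (dl w (f (I l)) - dl w (f (I ρ))) 0 := by
    intro l hl
    funext j
    simp only [hR, Rm, Matrix.of_apply, if_neg hl]
  have hRb : ∀ b, R (Sum.inr b) = dl (pt w T U) (X (Sum.inr b)) - dl (pt w T U) (X (Sum.inl ρ₀)) := by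
    intro b
    rw [hX, dl_X]
    funext j
    cases b <;> rcases j with j | j <;> simp [hR, Rm]
    · cases j <;> simp
  have h1 : (mrow (Sum.inl ρ) (R (Sum.inl ρ)) fun x =>
      ∑ c, (ax I ρ N x c : K) • (dl (pt w T U) (FF f c)
        - (DG κ d c : K) • dl (pt w T U) (X (Sum.inl ρ₀)))).det
      = (N.map (fun z : ℤ => (z : K))).det * R.det := by
    refine m_det3 (Sum.inl ρ) _ (fun j => ?_) R _ fun x hx => ?_
    · rw [Matrix.map_apply, hN j]
      split_ifs <;> simp
    · rw [ax_sum]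
      refine Finset.sum_congr rfl fun z _ => ?_
      rw [Matrix.map_apply]
      by_cases hz : z = Sum.inl ρ
      · rw [hz, hN' x, if_neg hx, Int.cast_zero, zero_smul, zero_smul]
      congr 1
      rcases z with l | b
      · have hl : l ≠ ρ := fun h => hz (h ▸ rfl)
        simp only [Sum.elim_inl, FF, DG]
        rw [hRl l hl, dl_ren, dl_ren, hX]
        funext j
        rcases j with j | j <;> simp
      · simp only [Sum.elim_inr, FF, DG, Nat.cast_one, one_smul]
        exact (hRb b).symm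
  rw [hRρ] at h1
  rw [h1, m_det4, ← Int.cast_det]

end

end Pool.Agent.Lib.MP_17a322_nt.ABD
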