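import Pool.Agent.Lib.MP_17a322_nt.ABD.B7

/-!
The lower bound for the minors at one place.
-/

set_option autoImplicit false
set_option linter.unusedSectionVars false

universe u

namespace Pool.Agent.Lib.MP_17a322_nt.ABD

open MvPolynomial Matrix

section

variable {K τ κ : Type*} [Field K] [Fintype τ] [DecidableEq τ] [Fintype κ] [DecidableEq κ]

/-- The forms `phi_A`. -/
noncomputable def Ph (f : κ → MvPolynomial τ K) (d : ℕ) (ρ₀ : τ) (M : ℕ)
    (A : (κ ⊕ Bool → Fin (2 * M + 1)) → Bool) : MvPolynomial (τ ⊕ Bool) K :=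
  phiS (fun e => nm (FF f) (DG κ d) (X (Sum.inl ρ₀)) (EX κ M e))
    (fun e => nm (FF f) (DG κ d) (X (Sum.inl ρ₀)) (-EX κ M e)) A

/-- Their degree. -/
def dP (κ : Type*) [Fintype κ] [DecidableEq κ] (d M : ℕ) : ℕ :=
  dgE (DG κ d) (EX κ M)

theorem dP_pos (d M : ℕ) (hM : 1 ≤ M) : 0 < dP κ d M := by
  have h0 : (0 : ℕ) < 2 * M + 1 := by omega
  unfold dP dgE
  refine lt_of_lt_of_le ?_ (Finset.single_le_sum
    (f := fun e : κ ⊕ Bool → Fin (2 * M + 1) => ∑ c, DG κ d c * (EX κ M e c).natAbs)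
    (fun _ _ => Nat.zero_le _) (Finset.mem_univ fun _ => ⟨0, h0⟩))
  refine lt_of_lt_of_le ?_ (Finset.single_le_sum
    (f := fun c : κ ⊕ Bool => DG κ d c * (EX κ M (fun _ => ⟨0, h0⟩) c).natAbs)
    (fun _ _ => Nat.zero_le _) (Finset.mem_univ (Sum.inr true)))
  simp only [DG, EX, Sum.elim_inr, one_mul, Nat.cast_zero, zero_sub, Int.natAbs_neg,
    Int.natAbs_natCast]
  omega

theorem Ph_hom {f : κ → MvPolynomial τ K} {d : ℕ} (hf : ∀ a, (f a).IsHomogeneous d) (ρ₀ : τ)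
    (M : ℕ) (A : (κ ⊕ Bool → Fin (2 * M + 1)) → Bool) :
    (Ph f d ρ₀ M A).IsHomogeneous (dP κ d M) := by
  have hX : (X (Sum.inl ρ₀) : MvPolynomial (τ ⊕ Bool) K).IsHomogeneous 1 := isHomogeneous_X _ _
  refine ph_hom (fun e => nm_hom (FF_hom hf) hX (EX κ M e)) (fun e => ?_) A
  have := nm_hom (FF_hom hf) hX (-EX κ M e)
  simpa using this

theorem loc_bd [CharZero K] (v : AbsoluteValue K ℝ) {f : κ → MvPolynomial τ K} {d : ℕ}
    (hd : d ≠ 0) (hf : ∀ a, (f a).IsHomogeneous d) {w : τ → K} (hfw : ∀ a, eval w (f a) ≠ 0)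
    {ρ₀ : τ} (hw₀ : w ρ₀ ≠ 0) {T U : K} (hT : T ≠ 0) (hU : U ≠ 0) (I : τ → κ)
    (hI : (Matrix.of fun l j => dl w (f (I l)) j).det ≠ 0) (ρ : τ)
    {N : Matrix (τ ⊕ Bool) (τ ⊕ Bool) ℤ} (hdet : N.det = 1 ∨ N.det = -1) {M M' : ℕ}
    (hM1 : 1 ≤ M') (hM' : (Fintype.card τ + 1) * M ≤ M') (hbd : ∀ i j, |N i j| ≤ M)
    (hN : ∀ j, N (Sum.inl ρ) j = if Sum.inl ρ = j then 1 else 0)
    (hN' : ∀ i, N i (Sum.inl ρ) = if i = Sum.inl ρ then 1 else 0)
    (x : τ ⊕ Bool → ℝ)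
    (hx1 : ∀ l, x (Sum.inl l) = Real.log (v (eval w (f (I ρ)))) - Real.log (v (eval w (f (I l)))))
    (hx2 : ∀ b, x (Sum.inr b) = Real.log (v (w ρ₀)) - Real.log (v (if b then T else U)))
    (hnn : ∀ i, i ≠ Sum.inl ρ → 0 ≤ ∑ j, (N i j : ℝ) * x j) :
    Fintype.card (τ ⊕ Bool) * Real.log (⨆ A, v (eval (pt w T U) (Ph f d ρ₀ M' A)))
        + Real.log (v (Matrix.of fun l j => dl w (f (I l)) j).det)
      ≤ Real.log (⨆ s : τ ⊕ Bool → (κ ⊕ Bool → Fin (2 * M' + 1)) → Bool,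
          v (Matrix.of fun i j => eval (pt w T U) (pderiv j (Ph f d ρ₀ M' (s i)))).det)
        + ∑ i ∈ Finset.univ.erase (Sum.inl ρ), ∑ j, (N i j : ℝ) * x j
        + Real.log (v T) + Real.log (v U)
        + (Real.log (v (d : K)) - Real.log (v (dP κ d M' : K))) := by
  set p := pt w T U with hp
  set P : MvPolynomial (τ ⊕ Bool) K := X (Sum.inl ρ₀) with hPdef
  have hP : P.IsHomogeneous 1 := isHomogeneous_X _ _
  have hPp : eval p P ≠ 0 := by
    rw [hPdef, eval_X]; exact hw₀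
  have hPv : eval p P = w ρ₀ := by rw [hPdef, eval_X]; rfl
  have hFp : ∀ c, eval p (FF f c) ≠ 0 := by
    rintro (a | b)
    · simp only [FF, Sum.elim_inl]
      rw [hp, eval_ren]; exact hfw a
    · simp only [FF, Sum.elim_inr, eval_X]
      cases b
      · exact hU
      · exact hT
  -- the exponents
  have hax : ∀ z c, |ax I ρ N z c| ≤ M' := fun z c =>
    (ax_bd I ρ N hbd z c).trans (by exact_mod_cast hM')
  set e : τ ⊕ Bool → κ ⊕ Bool → Fin (2 * M' + 1) := fun z c =>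
    ⟨(ax I ρ N z c + M').toNat, by
      have := abs_le.1 (hax z c)
      omega⟩ with he
  have hEX : ∀ z, EX κ M' (e z) = ax I ρ N z := by
    intro z
    funext c
    have := abs_le.1 (hax z c)
    simp only [EX, he]
    omega
  set g : (κ ⊕ Bool → Fin (2 * M' + 1)) → K := fun a =>
    ∏ c, (eval p (FF f c) / eval p P ^ DG κ d c) ^ EX κ M' a c with hg
  have hy0 : ∀ c, eval p (FF f c) / eval p P ^ DG κ d c ≠ 0 := fun c =>
    div_ne_zero (hFp c) (pow_ne_zero _ hPp)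
  have hg0 : ∀ a, g a ≠ 0 := fun a => Finset.prod_ne_zero_iff.2 fun c _ => zpow_ne_zero _ (hy0 c)
  have hlogg : ∀ z, Real.log (v (g (e z))) = -∑ j, (N z j : ℝ) * x j := by
    intro z
    have h1 : Real.log (v (g (e z)))
        = ∑ c, (ax I ρ N z c : ℝ) * Real.log (v (eval p (FF f c) / eval p P ^ DG κ d c)) := by
      simp only [hg, hEX]
      rw [map_prod, Real.log_prod fun c _ => (v.pos (zpow_ne_zero _ (hy0 c))).ne']
      refine Finset.sum_congr rfl fun c _ => ?_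
      rw [map_zpow₀, Real.log_zpow]
    have h2 := ax_sum (K := ℝ) (V := ℝ) I ρ N z
      (fun c => Real.log (v (eval p (FF f c) / eval p P ^ DG κ d c)))
    simp only [smul_eq_mul] at h2
    rw [h1, h2, ← Finset.sum_neg_distrib]
    refine Finset.sum_congr rfl fun j _ => ?_
    rw [← mul_neg]
    congr 1
    have hvw : v (w ρ₀) ≠ 0 := (v.pos hw₀).ne'
    rcases j with l | b
    · simp only [Sum.elim_inl, FF, DG]
      rw [hx1, hp, eval_ren, eval_ren, ← hp, hPv, map_div₀, map_div₀, map_pow,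
        Real.log_div (v.pos (hfw _)).ne' (pow_ne_zero _ hvw),
        Real.log_div (v.pos (hfw _)).ne' (pow_ne_zero _ hvw)]
      ring
    · simp only [Sum.elim_inr, FF, DG, pow_one, eval_X]
      have hb : (if b then T else U) ≠ 0 := by cases b <;> simp [hT, hU]
      have hpb : p (Sum.inr b) = if b then T else U := rfl
      rw [hx2, hPv, hpb, map_div₀, Real.log_div (v.pos hb).ne' hvw]
      ring
  -- the selection of the maximal form
  set A₀ : (κ ⊕ Bool → Fin (2 * M' + 1)) → Bool := fun a => decide (1 < v (g a)) with hA₀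
  have hA : ∀ z, z ≠ Sum.inl ρ → A₀ (e z) = false := by
    intro z hz
    have h1 : Real.log (v (g (e z))) ≤ 0 := by
      rw [hlogg z]; linarith [hnn z hz]
    have h2 : v (g (e z)) ≤ 1 := (Real.log_nonpos_iff (v.nonneg _)).1 h1
    simp only [hA₀, decide_eq_false_iff_not, not_lt]
    exact h2
  have hquot : ∀ a, eval p (nm (FF f) (DG κ d) P (EX κ M' a))
      / eval p (nm (FF f) (DG κ d) P (-EX κ M' a)) = g a := fun a => nm_quot _ hFp hPp _
  have hnu : ∀ a, eval p (nm (FF f) (DG κ d) P (EX κ M' a)) ≠ 0 := fun a => nm_ne _ hFp hPp _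
  have hde : ∀ a, eval p (nm (FF f) (DG κ d) P (-EX κ M' a)) ≠ 0 := fun a => nm_ne _ hFp hPp _
  have hmax : ∀ A, v (eval p (Ph f d ρ₀ M' A)) ≤ v (eval p (Ph f d ρ₀ M' A₀)) := by
    intro A
    simp only [Ph, phiS, map_prod]
    refine Finset.prod_le_prod (fun a _ => v.nonneg _) fun a _ => ?_
    have h1 := hquot a
    have h2 : v (eval p (nm (FF f) (DG κ d) P (EX κ M' a)))
        = v (g a) * v (eval p (nm (FF f) (DG κ d) P (-EX κ M' a))) := by
      rw [← map_mul, ← h1, div_mul_cancel₀ _ (hde a)]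
    have h3 := v.pos (hde a)
    rw [← hPdef]
    by_cases h : 1 < v (g a)
    · have h4 : A₀ a = true := by simp [hA₀, h]
      rw [h4, if_pos rfl]
      cases A a
      · rw [if_neg Bool.false_ne_true, h2]; nlinarith
      · rw [if_pos rfl]
    · have h4 : A₀ a = false := by simp [hA₀, h]
      rw [h4, if_neg Bool.false_ne_true]
      push Not at h
      cases A a
      · rw [if_neg Bool.false_ne_true]
      · rw [if_pos rfl, h2]; nlinarith
  have hφ0 : eval p (Ph f d ρ₀ M' A₀) ≠ 0 := ph_ne hnu hde A₀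
  have hsup : (⨆ A, v (eval p (Ph f d ρ₀ M' A))) = v (eval p (Ph f d ρ₀ M' A₀)) :=
    le_antisymm (ciSup_le hmax) (Finite.le_ciSup (fun A => v (eval p (Ph f d ρ₀ M' A))) A₀)
  -- the minor
  have hmin := minor_eq (FF_hom hf) hP hFp hPp (EX κ M') (Sum.inl ρ) A₀ e hA
    (hf (I ρ)).rename_isHomogeneous (f₀ := rename Sum.inl (f (I ρ)))
    (by rw [hp, eval_ren]; exact hfw _)
  have hnew := det_new f d w T U ρ₀ I ρ N hN hN'
  simp only [hEX] at hmin
  rw [← hp, ← hPdef] at hnew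
  rw [hnew] at hmin
  set μ : K := (Matrix.of fun i j => eval p (pderiv j (Ph f d ρ₀ M'
    (rsel (Sum.inl ρ) A₀ e i)))).det with hμ
  have hmin' : (d : K) * μ = (dP κ d M' : K) * (eval p (Ph f d ρ₀ M' A₀) ^ Fintype.card (τ ⊕ Bool)
      * (∏ z ∈ Finset.univ.erase (Sum.inl ρ), g (e z))
      * ((N.det : K) * ((Matrix.of fun l j => dl w (f (I l)) j).det * (T⁻¹ * U⁻¹)))) := by
    have h1 : ∀ z, g (e z) = ∏ c, (eval p (FF f c) / eval p P ^ DG κ d c) ^ ax I ρ N z c := by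
      intro z
      simp only [hg, hEX]
    rw [Finset.prod_congr rfl fun z _ => h1 z]
    exact hmin
  have hd' : (d : K) ≠ 0 := by exact_mod_cast hd
  have hδ' : (dP κ d M' : K) ≠ 0 := by exact_mod_cast (dP_pos d M' hM1).ne'
  have hNdet : v (N.det : K) = 1 := by
    rcases hdet with h | h <;> rw [h] <;> simp
  have hNdet0 : (N.det : K) ≠ 0 := by
    rcases hdet with h | h <;> rw [h] <;> simp
  have hprod0 : (∏ z ∈ Finset.univ.erase (Sum.inl ρ), g (e z)) ≠ 0 :=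
    Finset.prod_ne_zero_iff.2 fun z _ => hg0 _
  have hμ0 : μ ≠ 0 := by
    intro h
    rw [h, mul_zero] at hmin'
    refine absurd hmin'.symm (mul_ne_zero hδ' (mul_ne_zero (mul_ne_zero (pow_ne_zero _ hφ0) hprod0)
      (mul_ne_zero hNdet0 (mul_ne_zero hI (mul_ne_zero (inv_ne_zero hT) (inv_ne_zero hU))))))
  have hlog := congrArg (fun y => Real.log (v y)) hmin'
  simp only [map_mul, map_pow, map_inv₀, map_prod] at hlog
  rw [Real.log_mul (v.pos hd').ne' (v.pos hμ0).ne', hNdet, one_mul,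
    Real.log_mul (v.pos hδ').ne', Real.log_mul, Real.log_mul, Real.log_pow,
    Real.log_prod, Real.log_mul, Real.log_mul, Real.log_inv, Real.log_inv] at hlog
  · rw [Finset.sum_congr rfl fun z _ => hlogg z, Finset.sum_neg_distrib] at hlog
    rw [hsup]
    have hle : Real.log (v μ) ≤ Real.log (⨆ s : τ ⊕ Bool → (κ ⊕ Bool → Fin (2 * M' + 1)) → Bool,
        v (Matrix.of fun i j => eval p (pderiv j (Ph f d ρ₀ M' (s i)))).det) :=
      Real.log_le_log (v.pos hμ0) (Finite.le_ciSup (fun s : τ ⊕ Bool →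
        (κ ⊕ Bool → Fin (2 * M' + 1)) → Bool =>
        v (Matrix.of fun i j => eval p (pderiv j (Ph f d ρ₀ M' (s i)))).det)
        (rsel (Sum.inl ρ) A₀ e))
    linarith
  · exact (inv_pos.2 (v.pos hT)).ne'
  · exact (inv_pos.2 (v.pos hU)).ne'
  · exact (v.pos hI).ne'
  · exact mul_ne_zero (inv_pos.2 (v.pos hT)).ne' (inv_pos.2 (v.pos hU)).ne'
  · exact fun z _ => (v.pos (hg0 _)).ne'
  · exact (pow_pos (v.pos hφ0) _).ne'
  · exact Finset.prod_ne_zero_iff.2 fun z _ => (v.pos (hg0 _)).ne'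
  · exact mul_ne_zero (pow_pos (v.pos hφ0) _).ne'
      (Finset.prod_ne_zero_iff.2 fun z _ => (v.pos (hg0 _)).ne')
  · exact mul_ne_zero (v.pos hI).ne'
      (mul_ne_zero (inv_pos.2 (v.pos hT)).ne' (inv_pos.2 (v.pos hU)).ne')
  · exact mul_ne_zero (mul_ne_zero (pow_pos (v.pos hφ0) _).ne'
      (Finset.prod_ne_zero_iff.2 fun z _ => (v.pos (hg0 _)).ne'))
      (mul_ne_zero (v.pos hI).ne'
        (mul_ne_zero (inv_pos.2 (v.pos hT)).ne' (inv_pos.2 (v.pos hU)).ne'))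

end

end Pool.Agent.Lib.MP_17a322_nt.ABD
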