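import Pool.Agent.Lib.MP_17a322_nt.ABD.B2
import Pool.Agent.Lib.MP_17a322_nt.ABD.B8

/-!
The lower bound for the minors at one place, with the choice of the unimodular matrix.
-/

set_option autoImplicit false
set_option linter.unusedSectionVars false

universe u

namespace Pool.Agent.Lib.MP_17a322_nt.ABD

open MvPolynomial Matrix

section

variable {K τ κ : Type*} [Field K] [Fintype τ] [DecidableEq τ] [Fintype κ] [DecidableEq κ]

/-- The coordinates of the abc vector. -/
theorem entry_dl {f : κ → MvPolynomial τ K} {w : τ → K} (hfw : ∀ a, eval w (f a) ≠ 0)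
    (s : τ → κ) :
    (Matrix.of fun i j => eval w (pderiv j (f (s i)))).det *
        ∏ a ∈ (Finset.univ.image s)ᶜ, eval w (f a)
      = (∏ a, eval w (f a)) * (Matrix.of fun i j => dl w (f (s i)) j).det := by
  have h1 : (Matrix.of fun i j => eval w (pderiv j (f (s i))))
      = Matrix.of fun i j => eval w (f (s i)) * (Matrix.of fun i j => dl w (f (s i)) j) i j := by
    ext i j
    simp only [Matrix.of_apply]
    exact dl_row (hfw _) j
  rw [h1, m_det0]
  by_cases hs : Function.Injective s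
  · have h2 : (∏ i, eval w (f (s i))) = ∏ a ∈ Finset.univ.image s, eval w (f a) :=
      (Finset.prod_image (f := fun a => eval w (f a)) fun a _ b _ h => hs h).symm
    rw [h2, ← Finset.prod_mul_prod_compl (Finset.univ.image s) fun a => eval w (f a)]
    ring
  · have h2 : (Matrix.of fun i j => dl w (f (s i)) j).det = 0 := by
      rw [Function.Injective] at hs
      push Not at hs
      obtain ⟨a, b, hab, hne⟩ := hs
      refine Matrix.det_zero_of_row_eq hne ?_
      funext j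
      simp only [Matrix.of_apply, hab]
    rw [h2, mul_zero, zero_mul, mul_zero]

end

/-- The unimodular matrices of `u_all`. -/
def UA (m M : ℕ) (Y : Type) [Fintype Y] [DecidableEq Y] : Prop :=
  ∀ (ρ θ : Y), ρ ≠ θ → ∀ x : Y → ℝ, 0 ≤ x θ →
    ∃ N : Matrix Y Y ℤ, (N.det = 1 ∨ N.det = -1) ∧ (∀ i j, |N i j| ≤ M) ∧
      (∀ j, N ρ j = if ρ = j then 1 else 0) ∧ (∀ i, N i ρ = if i = ρ then 1 else 0) ∧
      (∀ i, i ≠ ρ → 0 ≤ ∑ j, (N i j : ℝ) * x j) ∧
      ∑ i ∈ Finset.univ.erase ρ, ∑ j, (N i j : ℝ) * x j ≤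
        x θ + ∑ y ∈ (Finset.univ.erase ρ).filter (fun y => ¬ |x y| ≤ m * x θ), |x y|

section

variable {K : Type*} {τ κ : Type} [Field K] [Fintype τ] [DecidableEq τ] [Fintype κ]
  [DecidableEq κ]

theorem place_bd [CharZero K] (v : AbsoluteValue K ℝ) {f : κ → MvPolynomial τ K} {d : ℕ}
    (hd : d ≠ 0) (hf : ∀ a, (f a).IsHomogeneous d) {w : τ → K} (hfw : ∀ a, eval w (f a) ≠ 0)
    {ρ₀ : τ} (hw₀ : w ρ₀ ≠ 0) {t u : K} (ht : t ≠ 0) (hu : u ≠ 0)
    (hI : ∃ s : τ → κ, (Matrix.of fun l j => dl w (f (s l)) j).det ≠ 0)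
    {m M M' : ℕ} (hm : 1 ≤ m) (hM1 : 1 ≤ M') (hM' : (Fintype.card τ + 1) * M ≤ M')
    (hM : UA m M (τ ⊕ Bool)) {P A : ℝ}
    (hP : ∀ a b, Real.log (v (eval w (f a))) - Real.log (v (eval w (f b))) ≤ P)
    (hA : 0 ≤ A) (hA' : -Real.log (v t) ≤ A)
    (hcase : (0 ≤ -Real.log (v t) ∧ P ≤ m * -Real.log (v t)) ∨
      (0 ≤ -Real.log (v u) ∧ P ≤ m * -Real.log (v u) ∧
        |Real.log (v t)| ≤ m * -Real.log (v u))) :
    Fintype.card (τ ⊕ Bool) *
          Real.log (⨆ A, v (eval (pt w (t * w ρ₀) (u * w ρ₀)) (Ph f d ρ₀ M' A)))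
        + Real.log (⨆ s : τ → κ, v (Matrix.of fun l j => dl w (f (s l)) j).det)
      ≤ Real.log (⨆ s : τ ⊕ Bool → (κ ⊕ Bool → Fin (2 * M' + 1)) → Bool,
          v (Matrix.of fun i j =>
            eval (pt w (t * w ρ₀) (u * w ρ₀)) (pderiv j (Ph f d ρ₀ M' (s i)))).det)
        + (A + |Real.log (v u)|)
        + Real.log (v (t * w ρ₀)) + Real.log (v (u * w ρ₀))
        + (Real.log (v (d : K)) - Real.log (v (dP κ d M' : K))) := by
  have hm' : (1 : ℝ) ≤ m := by exact_mod_cast hm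
  obtain ⟨s0, hs0⟩ := hI
  have hne : Nonempty (τ → κ) := ⟨s0⟩
  obtain ⟨I, hI⟩ := exists_eq_ciSup_of_finite
    (f := fun s : τ → κ => v (Matrix.of fun l j => dl w (f (s l)) j).det)
  have hIne : (Matrix.of fun l j => dl w (f (I l)) j).det ≠ 0 := by
    intro h
    have h1 := Finite.le_ciSup (fun s : τ → κ => v (Matrix.of fun l j => dl w (f (s l)) j).det) s0
    rw [← hI] at h1
    simp only [h, map_zero] at h1
    exact absurd h1 (not_le.2 (v.pos hs0))
  have hτ : Nonempty τ := ⟨ρ₀⟩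
  obtain ⟨ρ, hρ⟩ := Finite.exists_max fun l => v (eval w (f (I l)))
  set T : K := t * w ρ₀ with hT
  set U : K := u * w ρ₀ with hU
  have hT0 : T ≠ 0 := mul_ne_zero ht hw₀
  have hU0 : U ≠ 0 := mul_ne_zero hu hw₀
  set x : τ ⊕ Bool → ℝ := Sum.elim
    (fun l => Real.log (v (eval w (f (I ρ)))) - Real.log (v (eval w (f (I l)))))
    (fun b => Real.log (v (w ρ₀)) - Real.log (v (if b then T else U))) with hx
  have hvw : v (w ρ₀) ≠ 0 := (v.pos hw₀).ne'
  have hxT : x (Sum.inr true) = -Real.log (v t) := by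
    simp only [hx, Sum.elim_inr, if_true, hT]
    rw [map_mul, Real.log_mul (v.pos ht).ne' hvw]
    ring
  have hxU : x (Sum.inr false) = -Real.log (v u) := by
    simp only [hx, Sum.elim_inr, Bool.false_eq_true, if_false, hU]
    rw [map_mul, Real.log_mul (v.pos hu).ne' hvw]
    ring
  have hxl : ∀ l, |x (Sum.inl l)| ≤ P := by
    intro l
    have h1 : 0 ≤ x (Sum.inl l) := by
      have := Real.log_le_log (v.pos (hfw (I l))) (hρ l)
      simp only [hx, Sum.elim_inl]
      linarith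
    rw [abs_of_nonneg h1]
    exact hP _ _
  obtain ⟨N, hdet, hbd, hN, hN', hnn, hcost⟩ : ∃ N : Matrix (τ ⊕ Bool) (τ ⊕ Bool) ℤ,
      (N.det = 1 ∨ N.det = -1) ∧ (∀ i j, |N i j| ≤ M) ∧
      (∀ j, N (Sum.inl ρ) j = if Sum.inl ρ = j then 1 else 0) ∧
      (∀ i, N i (Sum.inl ρ) = if i = Sum.inl ρ then 1 else 0) ∧
      (∀ i, i ≠ Sum.inl ρ → 0 ≤ ∑ j, (N i j : ℝ) * x j) ∧
      ∑ i ∈ Finset.univ.erase (Sum.inl ρ), ∑ j, (N i j : ℝ) * x j ≤ A + |Real.log (v u)| := by
    rcases hcase with ⟨h1, h2⟩ | ⟨h1, h2, h3⟩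
    · obtain ⟨N, a1, a2, a3, a4, a5, a6⟩ := hM (Sum.inl ρ) (Sum.inr true) (by simp) x
        (by rw [hxT]; exact h1)
      refine ⟨N, a1, a2, a3, a4, a5, a6.trans ?_⟩
      have hsub : ((Finset.univ.erase (Sum.inl ρ)).filter
          fun y => ¬ |x y| ≤ m * x (Sum.inr true)) ⊆ {Sum.inr false} := by
        intro y hy
        rw [Finset.mem_filter] at hy
        rw [Finset.mem_singleton]
        by_contra hne
        refine hy.2 ?_
        rcases y with l | b
        · exact (hxl l).trans (by rw [hxT]; exact h2)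
        · cases b
          · exact absurd rfl hne
          · rw [hxT, abs_of_nonneg h1]
            exact le_mul_of_one_le_left h1 hm'
      have h5 := Finset.sum_le_sum_of_subset_of_nonneg (f := fun y => |x y|) hsub
        fun i _ _ => abs_nonneg _
      rw [Finset.sum_singleton, hxU, abs_neg] at h5
      rw [hxT] at h5 ⊢
      linarith
    · obtain ⟨N, a1, a2, a3, a4, a5, a6⟩ := hM (Sum.inl ρ) (Sum.inr false) (by simp) x
        (by rw [hxU]; exact h1)
      refine ⟨N, a1, a2, a3, a4, a5, a6.trans ?_⟩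
      have hemp : ((Finset.univ.erase (Sum.inl ρ)).filter
          fun y => ¬ |x y| ≤ m * x (Sum.inr false)) = ∅ := by
        refine Finset.filter_eq_empty_iff.2 fun y _ => not_not.2 ?_
        rcases y with l | b
        · exact (hxl l).trans (by rw [hxU]; exact h2)
        · cases b
          · rw [hxU, abs_of_nonneg h1]
            exact le_mul_of_one_le_left h1 hm'
          · rw [hxT, hxU, abs_neg]
            exact h3
      rw [hemp, Finset.sum_empty, add_zero, hxU]
      linarith [neg_le_abs (Real.log (v u))]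
  have hmain := loc_bd v hd hf hfw hw₀ hT0 hU0 I hIne ρ hdet hM1 hM' hbd hN hN' x
    (fun l => rfl) (fun b => rfl) hnn
  rw [← hI]
  linarith

end

end Pool.Agent.Lib.MP_17a322_nt.ABD
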